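import Mathlib

/-!
A counterexample to a conjecture of Geelen and Whittle on infinite antichains of matroids.

For each positive integer `k` we take a binary matroid of rank `n = 2 ^ (20 * (k + 1))` with two
disjoint circuit hyperplanes `H` and `K` and relax both of them.  A minor of smaller rank sees at
most one of the two relaxations in each of its parts, which makes the family an antichain and
excludes the uniform matroid of rank three on six elements.  The binary matroid consists of an
explicit part `H ∪ K` coming from a cube, many vectors chosen by a counting argument which make all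
large cuts highly connected, and one extra element which creates a circuit of size exactly `k`.
-/

set_option autoImplicit false

namespace Pool.Agent.Results.MP_5d01ce_co.Disproof

open Set

/-- `N` is isomorphic to a minor of `M`. -/
def IsoMinor (N M : Matroid ℕ) : Prop :=
  ∃ f : ℕ → ℕ, ∃ hf : Set.InjOn f N.E, (N.map f hf).IsMinor M

/-- `M` has a `j`-separation. -/
def HasSeparation {α : Type*} (M : Matroid α) (j : ℕ) : Prop :=
  ∃ X ⊆ M.E, (j : ℕ∞) ≤ X.encard ∧ (j : ℕ∞) ≤ (M.E \ X).encard ∧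
    M.eRk X + M.eRk (M.E \ X) + 1 ≤ M.eRank + j

/-- The Tutte connectivity of `M` is the finite number `k`. -/
def HasTutteConnectivity {α : Type*} (M : Matroid α) (k : ℕ) : Prop :=
  IsLeast {j : ℕ | 1 ≤ j ∧ HasSeparation M j} k

section Star

variable {α : Type*} {β : Type*}

/-- a local configuration witnessing a four point line -/
def Cfg (M : Matroid α) (A : Set α) (a b c d : α) : Prop :=
  A ⊆ M.E ∧ a ∈ M.E ∧ b ∈ M.E ∧ c ∈ M.E ∧ d ∈ M.E ∧ a ∉ A ∧ b ∉ A ∧ c ∉ A ∧ d ∉ A ∧
  a ≠ b ∧ a ≠ c ∧ b ≠ c ∧ a ≠ d ∧ b ≠ d ∧ c ≠ d ∧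
  M.Indep (A ∪ {a, b}) ∧ M.Indep (A ∪ {a, c}) ∧ M.Indep (A ∪ {b, c}) ∧
  M.Indep (A ∪ {a, d}) ∧ M.Indep (A ∪ {b, d}) ∧ M.Indep (A ∪ {c, d}) ∧
  ¬ M.Indep (A ∪ {a, b, c}) ∧ ¬ M.Indep (A ∪ {a, b, d})

/-- some element is avoided by one configuration and contracted in another one -/
def Star (M : Matroid α) : Prop :=
  ∃ e, (∃ A a b c d, Cfg M A a b c d ∧ e ∉ A ∧ e ≠ a ∧ e ≠ b ∧ e ≠ c ∧ e ≠ d) ∧
    (∃ A a b c d, Cfg M A a b c d ∧ e ∈ A)

/-- each configuration contains one of the two sets as one of its pair sets -/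
def TwoSpecial (M : Matroid α) (H K : Set α) : Prop :=
  ∀ A a b c d, Cfg M A a b c d → ∃ p q, (p = a ∨ p = b ∨ p = c ∨ p = d) ∧
    (q = a ∨ q = b ∨ q = c ∨ q = d) ∧ M.Indep (A ∪ {p, q}) ∧
    (A ∪ {p, q} = H ∨ A ∪ {p, q} = K)

lemma Cfg.map {M : Matroid α} {A : Set α} {a b c d : α} (h : Cfg M A a b c d) (f : α → β)
    (hf : InjOn f M.E) : Cfg (M.map f hf) (f '' A) (f a) (f b) (f c) (f d) := by
  obtain ⟨hA, ha, hb, hc, hd, haA, hbA, hcA, hdA, hab, hac, hbc, had, hbd, hcd, i1, i2, i3, i4,
    i5, i6, j1, j2⟩ := h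
  have hmem : ∀ x ∈ M.E, x ∉ A → f x ∉ f '' A := by
    rintro x hx hxA ⟨y, hy, hyx⟩
    exact hxA (hf (hA hy) hx hyx ▸ hy)
  have hneq : ∀ x ∈ M.E, ∀ y ∈ M.E, x ≠ y → f x ≠ f y := fun x hx y hy hxy h => hxy (hf hx hy h)
  have e2 : ∀ x y, f '' A ∪ {f x, f y} = f '' (A ∪ {x, y}) := by
    intro x y; rw [image_union, image_pair]
  have e3 : ∀ x y z, f '' A ∪ {f x, f y, f z} = f '' (A ∪ {x, y, z}) := by
    intro x y z; rw [image_union, image_insert_eq, image_pair]
  have s2 : ∀ x ∈ M.E, ∀ y ∈ M.E, A ∪ {x, y} ⊆ M.E := by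
    intro x hx y hy
    exact union_subset hA (by rintro z (rfl | rfl) <;> assumption)
  have s3 : ∀ x ∈ M.E, ∀ y ∈ M.E, ∀ z ∈ M.E, A ∪ {x, y, z} ⊆ M.E := by
    intro x hx y hy z hz
    exact union_subset hA (by rintro w (rfl | rfl | rfl) <;> assumption)
  refine ⟨image_mono hA, mem_image_of_mem _ ha, mem_image_of_mem _ hb, mem_image_of_mem _ hc,
    mem_image_of_mem _ hd, hmem a ha haA, hmem b hb hbA, hmem c hc hcA, hmem d hd hdA,
    hneq a ha b hb hab, hneq a ha c hc hac, hneq b hb c hc hbc, hneq a ha d hd had,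
    hneq b hb d hd hbd, hneq c hc d hd hcd, ?_, ?_, ?_, ?_, ?_, ?_, ?_, ?_⟩
  · rw [e2, Matroid.map_image_indep_iff (s2 a ha b hb)]; exact i1
  · rw [e2, Matroid.map_image_indep_iff (s2 a ha c hc)]; exact i2
  · rw [e2, Matroid.map_image_indep_iff (s2 b hb c hc)]; exact i3
  · rw [e2, Matroid.map_image_indep_iff (s2 a ha d hd)]; exact i4
  · rw [e2, Matroid.map_image_indep_iff (s2 b hb d hd)]; exact i5
  · rw [e2, Matroid.map_image_indep_iff (s2 c hc d hd)]; exact i6
  · rw [e3, Matroid.map_image_indep_iff (s3 a ha b hb c hc)]; exact j1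
  · rw [e3, Matroid.map_image_indep_iff (s3 a ha b hb d hd)]; exact j2

lemma Star.map {M : Matroid α} (h : Star M) (f : α → β) (hf : InjOn f M.E) :
    Star (M.map f hf) := by
  obtain ⟨e, ⟨A, a, b, c, d, hC, h1, h2, h3, h4, h5⟩, ⟨A', a', b', c', d', hC', h'⟩⟩ := h
  have he : e ∈ M.E := hC'.1 h'
  refine ⟨f e, ⟨f '' A, f a, f b, f c, f d, hC.map f hf, ?_, ?_, ?_, ?_, ?_⟩,
    ⟨f '' A', f a', f b', f c', f d', hC'.map f hf, mem_image_of_mem _ h'⟩⟩
  · rintro ⟨y, hy, hyx⟩
    exact h1 (hf (hC.1 hy) he hyx ▸ hy)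
  · exact fun h => h2 (hf he hC.2.1 h)
  · exact fun h => h3 (hf he hC.2.2.1 h)
  · exact fun h => h4 (hf he hC.2.2.2.1 h)
  · exact fun h => h5 (hf he hC.2.2.2.2.1 h)

/-- The key lemma: a minor of smaller rank cannot be starred. -/
lemma not_star_minor {M N : Matroid α} {H K : Set α} (hdisj : Disjoint H K)
    (hQ : TwoSpecial M H K) (hN : N.IsMinor M) (hH : N.eRank < H.encard)
    (hK : N.eRank < K.encard) : ¬ Star N := by
  rintro ⟨e, ⟨A, a, b, c, d, hC, h1, h2, h3, h4, h5⟩, ⟨A', a', b', c', d', hC', h'⟩⟩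
  obtain ⟨C, D, hCE, hDE, hCD, rfl⟩ := hN.exists_eq_contract_delete_disjoint
  obtain ⟨I, hI⟩ := M.exists_isBasis C hCE
  -- independence in the minor
  have key : ∀ S, S ⊆ (M.contract C |>.delete D).E →
      ((M.contract C |>.delete D).Indep S ↔ M.Indep (S ∪ I)) := by
    intro S hS
    rw [Matroid.delete_indep_iff, hI.contract_indep_iff]
    have hS' : S ⊆ (M.E \ C) \ D := hS
    constructor
    · rintro ⟨⟨h, _⟩, _⟩; exact h
    · intro h
      refine ⟨⟨h, ?_⟩, ?_⟩
      · exact Set.disjoint_left.mpr (fun x hxC hxS => (hS' hxS).1.2 hxC)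
      · exact Set.disjoint_left.mpr (fun x hxS hxD => (hS' hxS).2 hxD)
  have hIC := hI.subset
  have hIE : I ⊆ M.E := hIC.trans hCE
  have hNE : ∀ x, x ∈ (M.contract C |>.delete D).E → x ∈ M.E ∧ x ∉ I := by
    intro x hx
    have hx' : x ∈ (M.E \ C) \ D := hx
    exact ⟨hx'.1.1, fun h => hx'.1.2 (hIC h)⟩
  -- transfer configurations
  have trans : ∀ A a b c d, Cfg (M.contract C |>.delete D) A a b c d → Cfg M (A ∪ I) a b c d := by
    rintro A a b c d ⟨hA, ha, hb, hc, hd, haA, hbA, hcA, hdA, hab, hac, hbc, had, hbd, hcd, i1,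
      i2, i3, i4, i5, i6, j1, j2⟩
    have s2 : ∀ x y, A ∪ I ∪ {x, y} = A ∪ {x, y} ∪ I := fun x y => by
      rw [union_assoc, union_comm I, ← union_assoc]
    have s3 : ∀ x y z, A ∪ I ∪ {x, y, z} = A ∪ {x, y, z} ∪ I := fun x y z => by
      rw [union_assoc, union_comm I, ← union_assoc]
    have t2 : ∀ x ∈ (M.contract C |>.delete D).E, ∀ y ∈ (M.contract C |>.delete D).E,
        A ∪ {x, y} ⊆ (M.contract C |>.delete D).E := by
      intro x hx y hy
      exact union_subset hA (by rintro z (rfl | rfl) <;> assumption)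
    have t3 : ∀ x ∈ (M.contract C |>.delete D).E, ∀ y ∈ (M.contract C |>.delete D).E,
        ∀ z ∈ (M.contract C |>.delete D).E,
        A ∪ {x, y, z} ⊆ (M.contract C |>.delete D).E := by
      intro x hx y hy z hz
      exact union_subset hA (by rintro w (rfl | rfl | rfl) <;> assumption)
    refine ⟨union_subset (fun x hx => (hNE x (hA hx)).1) hIE, (hNE a ha).1, (hNE b hb).1,
      (hNE c hc).1, (hNE d hd).1, ?_, ?_, ?_, ?_, hab, hac, hbc, had, hbd, hcd, ?_, ?_, ?_, ?_,
      ?_, ?_, ?_, ?_⟩
    · rintro (h | h); exacts [haA h, (hNE a ha).2 h]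
    · rintro (h | h); exacts [hbA h, (hNE b hb).2 h]
    · rintro (h | h); exacts [hcA h, (hNE c hc).2 h]
    · rintro (h | h); exacts [hdA h, (hNE d hd).2 h]
    · rw [s2]; exact (key _ (t2 a ha b hb)).mp i1
    · rw [s2]; exact (key _ (t2 a ha c hc)).mp i2
    · rw [s2]; exact (key _ (t2 b hb c hc)).mp i3
    · rw [s2]; exact (key _ (t2 a ha d hd)).mp i4
    · rw [s2]; exact (key _ (t2 b hb d hd)).mp i5
    · rw [s2]; exact (key _ (t2 c hc d hd)).mp i6
    · rw [s3]; exact fun h => j1 ((key _ (t3 a ha b hb c hc)).mpr h)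
    · rw [s3]; exact fun h => j2 ((key _ (t3 a ha b hb d hd)).mpr h)
  have he : e ∈ (M.contract C |>.delete D).E := hC'.1 h'
  obtain ⟨p, q, hp, hq, hpq, hS⟩ := hQ _ _ _ _ _ (trans _ _ _ _ _ hC)
  obtain ⟨p', q', hp', hq', hpq', hS'⟩ := hQ _ _ _ _ _ (trans _ _ _ _ _ hC')
  have heS : e ∉ A ∪ I ∪ {p, q} := by
    rintro ((h | h) | h)
    · exact h1 h
    · exact (hNE e he).2 h
    · rcases h with rfl | h
      · rcases hp with rfl | rfl | rfl | rfl <;> contradiction
      · rw [mem_singleton_iff] at h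
        subst h
        rcases hq with rfl | rfl | rfl | rfl <;> contradiction
  have heS' : e ∈ A' ∪ I ∪ {p', q'} := Or.inl (Or.inl h')
  -- the contracted set is empty
  have hIempty : I = ∅ := by
    rw [eq_empty_iff_forall_notMem]
    intro x hx
    have hx1 : x ∈ A ∪ I ∪ {p, q} := Or.inl (Or.inr hx)
    have hx2 : x ∈ A' ∪ I ∪ {p', q'} := Or.inl (Or.inr hx)
    have hd' := Set.disjoint_left.mp hdisj
    rcases hS with hS | hS <;> rcases hS' with hS' | hS'
    · rw [hS, ← hS'] at heS; exact heS heS'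
    · rw [hS] at hx1; rw [hS'] at hx2; exact hd' hx1 hx2
    · rw [hS] at hx1; rw [hS'] at hx2; exact hd' hx2 hx1
    · rw [hS, ← hS'] at heS; exact heS heS'
  -- then a special set is independent in the minor
  have hmemE : ∀ x, (x = a' ∨ x = b' ∨ x = c' ∨ x = d') → x ∈ (M.contract C |>.delete D).E := by
    obtain ⟨_, ha, hb, hc, hd, _⟩ := hC'
    rintro x (rfl | rfl | rfl | rfl) <;> assumption
  have hsub : A' ∪ {p', q'} ⊆ (M.contract C |>.delete D).E := by
    refine union_subset hC'.1 ?_
    rintro x (rfl | h)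
    · exact hmemE _ hp'
    · rw [mem_singleton_iff] at h
      subst h
      exact hmemE _ hq'
  have hind : (M.contract C |>.delete D).Indep (A' ∪ {p', q'}) := by
    rw [key _ hsub]
    rw [hIempty] at hpq' ⊢
    simpa using hpq'
  have hle := hind.encard_le_eRank
  rw [hIempty, union_empty] at hS'
  rcases hS' with h | h
  · rw [h] at hle; exact absurd hle (not_le.mpr hH)
  · rw [h] at hle; exact absurd hle (not_le.mpr hK)

lemma TwoSpecial.map {M : Matroid α} {H K : Set α} (h : TwoSpecial M H K) (f : α → β)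
    (hf : InjOn f M.E) : TwoSpecial (M.map f hf) (f '' H) (f '' K) := by
  rintro A a b c d ⟨hA, ⟨a, ha, rfl⟩, ⟨b, hb, rfl⟩, ⟨c, hc, rfl⟩, ⟨d, hd, rfl⟩, haA, hbA, hcA, hdA,
    hab, hac, hbc, had, hbd, hcd, i1, i2, i3, i4, i5, i6, j1, j2⟩
  obtain ⟨A, hAE, rfl⟩ : ∃ A0, A0 ⊆ M.E ∧ A = f '' A0 := by
    rw [Matroid.map_ground] at hA
    obtain ⟨A0, h1, h2⟩ := (subset_image_iff).mp hA
    exact ⟨A0, h1, h2.symm⟩
  have e2 : ∀ x y, f '' A ∪ {f x, f y} = f '' (A ∪ {x, y}) := by
    intro x y; rw [image_union, image_pair]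
  have e3 : ∀ x y z, f '' A ∪ {f x, f y, f z} = f '' (A ∪ {x, y, z}) := by
    intro x y z; rw [image_union, image_insert_eq, image_pair]
  have s2 : ∀ x ∈ M.E, ∀ y ∈ M.E, A ∪ {x, y} ⊆ M.E := by
    intro x hx y hy
    exact union_subset hAE (by rintro z (rfl | rfl) <;> assumption)
  have s3 : ∀ x ∈ M.E, ∀ y ∈ M.E, ∀ z ∈ M.E, A ∪ {x, y, z} ⊆ M.E := by
    intro x hx y hy z hz
    exact union_subset hAE (by rintro w (rfl | rfl | rfl) <;> assumption)
  rw [e2, Matroid.map_image_indep_iff (s2 a ha b hb)] at i1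
  rw [e2, Matroid.map_image_indep_iff (s2 a ha c hc)] at i2
  rw [e2, Matroid.map_image_indep_iff (s2 b hb c hc)] at i3
  rw [e2, Matroid.map_image_indep_iff (s2 a ha d hd)] at i4
  rw [e2, Matroid.map_image_indep_iff (s2 b hb d hd)] at i5
  rw [e2, Matroid.map_image_indep_iff (s2 c hc d hd)] at i6
  rw [e3, Matroid.map_image_indep_iff (s3 a ha b hb c hc)] at j1
  rw [e3, Matroid.map_image_indep_iff (s3 a ha b hb d hd)] at j2
  have hcfg : Cfg M A a b c d := ⟨hAE, ha, hb, hc, hd, fun h => haA (mem_image_of_mem _ h),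
    fun h => hbA (mem_image_of_mem _ h), fun h => hcA (mem_image_of_mem _ h),
    fun h => hdA (mem_image_of_mem _ h), fun h => hab (h ▸ rfl), fun h => hac (h ▸ rfl),
    fun h => hbc (h ▸ rfl), fun h => had (h ▸ rfl), fun h => hbd (h ▸ rfl), fun h => hcd (h ▸ rfl),
    i1, i2, i3, i4, i5, i6, j1, j2⟩
  obtain ⟨p, q, hp, hq, hI, hS⟩ := h _ _ _ _ _ hcfg
  have hpE : p ∈ M.E := by rcases hp with rfl | rfl | rfl | rfl <;> assumption
  have hqE : q ∈ M.E := by rcases hq with rfl | rfl | rfl | rfl <;> assumption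
  refine ⟨f p, f q, ?_, ?_, ?_, ?_⟩
  · rcases hp with rfl | rfl | rfl | rfl <;> simp
  · rcases hq with rfl | rfl | rfl | rfl <;> simp
  · rw [e2, Matroid.map_image_indep_iff (s2 p hpE q hqE)]; exact hI
  · rw [e2]
    rcases hS with h | h
    · left; rw [h]
    · right; rw [h]

/-- the uniform matroid of rank three on six elements is starred -/
lemma star_uniform {M : Matroid α} (hE : M.E.encard = 6)
    (hI : ∀ I, M.Indep I ↔ (I ⊆ M.E ∧ I.encard ≤ 3)) : Star M := by
  classical
  have hfin : M.E.Finite := by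
    rw [← encard_ne_top_iff, hE]; decide
  have hcard : hfin.toFinset.card = 6 := by
    have : ((hfin.toFinset.card : ℕ) : ℕ∞) = 6 := by
      rw [← hE, ← hfin.encard_eq_coe_toFinset_card]
    exact_mod_cast this
  obtain ⟨g⟩ : Nonempty (Fin 6 ≃ hfin.toFinset) := by
    have := (hfin.toFinset.equivFinOfCardEq hcard).symm
    exact ⟨this⟩
  let x : Fin 6 → α := fun i => (g i).1
  have hx : Function.Injective x := fun i j h => g.injective (Subtype.ext h)
  have hxE : ∀ i, x i ∈ M.E := fun i => hfin.mem_toFinset.mp (g i).2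
  have hcfg : ∀ i j k l m : Fin 6, i ≠ j → i ≠ k → i ≠ l → i ≠ m → j ≠ k → j ≠ l → j ≠ m →
      k ≠ l → k ≠ m → l ≠ m → Cfg M {x i} (x j) (x k) (x l) (x m) := by
    intro i j k l m hij hik hil him hjk hjl hjm hkl hkm hlm
    have h3 : ∀ u v w : Fin 6, M.Indep ({x u} ∪ {x v, x w}) := by
      intro u v w
      rw [hI]
      refine ⟨?_, ?_⟩
      · rintro y (rfl | rfl | rfl) <;> exact hxE _
      · have : ({x u} ∪ {x v, x w} : Set α) = (({x u, x v, x w} : Finset α) : Set α) := by
          ext y; simp; tauto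
        rw [this, encard_coe_eq_coe_finsetCard]
        exact_mod_cast Finset.card_le_three
    have h4 : ∀ u v w z : Fin 6, u ≠ v → u ≠ w → u ≠ z → v ≠ w → v ≠ z → w ≠ z →
        ¬ M.Indep ({x u} ∪ {x v, x w, x z}) := by
      intro u v w z huv huw huz hvw hvz hwz
      rw [hI]
      rintro ⟨_, h⟩
      have : ({x u} ∪ {x v, x w, x z} : Set α) = ((({u, v, w, z} : Finset (Fin 6)).image x : Finset α) : Set α) := by
        ext y; simp; tauto
      rw [this, encard_coe_eq_coe_finsetCard, Finset.card_image_of_injective _ hx] at h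
      have h' : ({u, v, w, z} : Finset (Fin 6)).card = 4 := by
        rw [Finset.card_insert_of_notMem, Finset.card_insert_of_notMem, Finset.card_pair hwz]
        · simp [hvw, hvz]
        · simp [huv, huw, huz]
      rw [h'] at h
      exact absurd h (by decide)
    have hne : ∀ u v : Fin 6, u ≠ v → x u ≠ x v := fun u v h h' => h (hx h')
    refine ⟨by simpa using hxE i, hxE j, hxE k, hxE l, hxE m, ?_, ?_, ?_, ?_, hne _ _ hjk,
      hne _ _ hjl, hne _ _ hkl, hne _ _ hjm, hne _ _ hkm, hne _ _ hlm, h3 _ _ _, h3 _ _ _, h3 _ _ _,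
      h3 _ _ _, h3 _ _ _, h3 _ _ _, h4 _ _ _ _ hij hik hil hjk hjl hkl,
      h4 _ _ _ _ hij hik him hjk hjm hkm⟩
    · simpa using (hne _ _ hij.symm)
    · simpa using (hne _ _ hik.symm)
    · simpa using (hne _ _ hil.symm)
    · simpa using (hne _ _ him.symm)
  refine ⟨x 0, ⟨{x 1}, x 2, x 3, x 4, x 5, hcfg 1 2 3 4 5 (by decide) (by decide) (by decide)
    (by decide) (by decide) (by decide) (by decide) (by decide) (by decide) (by decide),
    ?_, ?_, ?_, ?_, ?_⟩, ⟨{x 0}, x 2, x 3, x 4, x 5, hcfg 0 2 3 4 5 (by decide) (by decide)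
    (by decide) (by decide) (by decide) (by decide) (by decide) (by decide) (by decide)
    (by decide), rfl⟩⟩
  · intro h; exact absurd (hx h) (by decide)
  · intro h; exact absurd (hx h) (by decide)
  · intro h; exact absurd (hx h) (by decide)
  · intro h; exact absurd (hx h) (by decide)
  · intro h; exact absurd (hx h) (by decide)

end Star


section Lin

variable {ι : Type*} {V : Type*} [AddCommGroup V] [Module (ZMod 2) V]

lemma zmod2_eq_one {x : ZMod 2} (h : x ≠ 0) : x = 1 := by
  revert h; revert x; decide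

/-- over the two element field, spans consist of subset sums -/
lemma mem_span_iff_sum (v : ι → V) (S : Set ι) (w : V) :
    w ∈ Submodule.span (ZMod 2) (v '' S) ↔ ∃ T : Finset ι, (T : Set ι) ⊆ S ∧ w = ∑ i ∈ T, v i := by
  constructor
  · intro h
    rw [Finsupp.mem_span_image_iff_linearCombination] at h
    obtain ⟨l, hl, rfl⟩ := h
    refine ⟨l.support, by simpa [Finsupp.mem_supported] using hl, ?_⟩
    rw [Finsupp.linearCombination_apply, Finsupp.sum]
    refine Finset.sum_congr rfl fun i hi => ?_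
    rw [zmod2_eq_one (Finsupp.mem_support_iff.mp hi), one_smul]
  · rintro ⟨T, hT, rfl⟩
    exact Submodule.sum_mem _ fun i hi => Submodule.subset_span ⟨i, hT hi, rfl⟩

lemma indep_iff_sum (v : ι → V) (S : Set ι) :
    LinearIndepOn (ZMod 2) v S ↔
      ∀ T : Finset ι, (T : Set ι) ⊆ S → T.Nonempty → ∑ i ∈ T, v i ≠ 0 := by
  classical
  rw [linearIndepOn_iff]
  constructor
  · intro h T hT hne hsum
    have := h (Finsupp.indicator T (fun _ _ => (1 : ZMod 2))) ?_ ?_
    · obtain ⟨i, hi⟩ := hne
      have h2 := DFunLike.congr_fun this i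
      rw [Finsupp.indicator_of_mem hi] at h2
      simp at h2
    · rw [Finsupp.mem_supported]
      intro i hi
      apply hT
      have := Finsupp.support_indicator_subset T (fun _ _ => (1 : ZMod 2)) hi
      exact this
    · rw [Finsupp.linearCombination_apply, Finsupp.sum_of_support_subset _ (Finsupp.support_indicator_subset T _)]
      · rw [← hsum]
        refine Finset.sum_congr rfl fun i hi => ?_
        rw [Finsupp.indicator_of_mem hi, one_smul]
      · simp
  · intro h l hl hsum
    by_contra hne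
    refine h l.support (by simpa [Finsupp.mem_supported] using hl) ?_ ?_
    · exact Finsupp.support_nonempty_iff.mpr hne
    · rw [← hsum, Finsupp.linearCombination_apply, Finsupp.sum]
      refine Finset.sum_congr rfl fun i hi => ?_
      rw [zmod2_eq_one (Finsupp.mem_support_iff.mp hi), one_smul]

lemma neg_eq_self2 (w : V) : -w = w := by
  have : (2 : ZMod 2) • w = 0 := by
    have : (2 : ZMod 2) = 0 := by decide
    rw [this, zero_smul]
  rw [two_smul] at this
  exact neg_eq_of_add_eq_zero_left this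

lemma add_self2 (w : V) : w + w = 0 := by
  have := neg_eq_self2 w
  nth_rewrite 1 [← this]
  simp

lemma sum_symmDiff2 [DecidableEq ι] (v : ι → V) (S T : Finset ι) :
    ∑ i ∈ symmDiff S T, v i = ∑ i ∈ S, v i + ∑ i ∈ T, v i := by
  have h1 : ∑ i ∈ S, v i = ∑ i ∈ S \ T, v i + ∑ i ∈ S ∩ T, v i := by
    rw [← Finset.sum_union (Finset.disjoint_left.mpr (by
      intro x hx hx'; simp only [Finset.mem_sdiff, Finset.mem_inter] at hx hx'; exact hx.2 hx'.2))]
    congr 1; ext x; simp only [Finset.mem_union, Finset.mem_sdiff, Finset.mem_inter]; tauto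
  have h2 : ∑ i ∈ T, v i = ∑ i ∈ T \ S, v i + ∑ i ∈ S ∩ T, v i := by
    rw [← Finset.sum_union (Finset.disjoint_left.mpr (by
      intro x hx hx'; simp only [Finset.mem_sdiff, Finset.mem_inter] at hx hx'; exact hx.2 hx'.1))]
    congr 1; ext x; simp only [Finset.mem_union, Finset.mem_sdiff, Finset.mem_inter]; tauto
  have h3 : ∑ i ∈ symmDiff S T, v i = ∑ i ∈ S \ T, v i + ∑ i ∈ T \ S, v i := by
    rw [symmDiff_def, Finset.sup_eq_union, Finset.sum_union]
    exact Finset.disjoint_left.mpr (by
      intro x hx hx'; simp only [Finset.mem_sdiff] at hx hx'; exact hx.2 hx'.1)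
  rw [h1, h2, h3]
  have := add_self2 (∑ i ∈ S ∩ T, v i)
  calc _ = ∑ i ∈ S \ T, v i + ∑ i ∈ T \ S, v i + 0 := by rw [add_zero]
    _ = _ := by rw [← this]; abel

/-- a vector configuration over the two element field has no four point line configuration -/
lemma no_cfg (v : ι → V) (A : Set ι) (a b c d : ι) (haA : a ∉ A) (hbA : b ∉ A) (hcA : c ∉ A)
    (hdA : d ∉ A) (hab : a ≠ b) (hac : a ≠ c) (hbc : b ≠ c) (had : a ≠ d) (hbd : b ≠ d)
    (hcd : c ≠ d)
    (i1 : LinearIndepOn (ZMod 2) v (A ∪ {a, b})) (i2 : LinearIndepOn (ZMod 2) v (A ∪ {a, c}))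
    (i3 : LinearIndepOn (ZMod 2) v (A ∪ {b, c})) (i4 : LinearIndepOn (ZMod 2) v (A ∪ {a, d}))
    (i5 : LinearIndepOn (ZMod 2) v (A ∪ {b, d})) (i6 : LinearIndepOn (ZMod 2) v (A ∪ {c, d}))
    (j1 : ¬ LinearIndepOn (ZMod 2) v (A ∪ {a, b, c}))
    (j2 : ¬ LinearIndepOn (ZMod 2) v (A ∪ {a, b, d})) : False := by
  classical
  rw [indep_iff_sum] at i1 i2 i3 i4 i5 i6 j1 j2
  push Not at j1 j2
  obtain ⟨T, hT, hTne, hT0⟩ := j1
  obtain ⟨U, hU, hUne, hU0⟩ := j2
  have memT : ∀ x ∈ T, x ∈ A ∨ x = a ∨ x = b ∨ x = c := by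
    intro x hx
    have := hT hx
    simp only [mem_union, mem_insert_iff, mem_singleton_iff] at this
    exact this
  have memU : ∀ x ∈ U, x ∈ A ∨ x = a ∨ x = b ∨ x = d := by
    intro x hx
    have := hU hx
    simp only [mem_union, mem_insert_iff, mem_singleton_iff] at this
    exact this
  have haT : a ∈ T := by
    by_contra h
    refine i3 T ?_ hTne hT0
    intro x hx
    rcases memT x hx with h' | rfl | rfl | rfl
    · exact Or.inl h'
    · exact absurd hx h
    · simp
    · simp
  have hbT : b ∈ T := by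
    by_contra h
    refine i2 T ?_ hTne hT0
    intro x hx
    rcases memT x hx with h' | rfl | rfl | rfl
    · exact Or.inl h'
    · simp
    · exact absurd hx h
    · simp
  have hcT : c ∈ T := by
    by_contra h
    refine i1 T ?_ hTne hT0
    intro x hx
    rcases memT x hx with h' | rfl | rfl | rfl
    · exact Or.inl h'
    · simp
    · simp
    · exact absurd hx h
  have haU : a ∈ U := by
    by_contra h
    refine i5 U ?_ hUne hU0
    intro x hx
    rcases memU x hx with h' | rfl | rfl | rfl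
    · exact Or.inl h'
    · exact absurd hx h
    · simp
    · simp
  have hbU : b ∈ U := by
    by_contra h
    refine i4 U ?_ hUne hU0
    intro x hx
    rcases memU x hx with h' | rfl | rfl | rfl
    · exact Or.inl h'
    · simp
    · exact absurd hx h
    · simp
  have hdT : d ∉ T := by
    intro h
    rcases memT d h with h' | h' | h' | h'
    · exact hdA h'
    · exact had h'.symm
    · exact hbd h'.symm
    · exact hcd h'.symm
  refine i6 (symmDiff T U) ?_ ⟨c, ?_⟩ ?_
  · intro x hx
    rw [Finset.mem_coe, Finset.mem_symmDiff] at hx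
    rcases hx with ⟨h1, h2⟩ | ⟨h1, h2⟩
    · rcases memT x h1 with h' | rfl | rfl | rfl
      · exact Or.inl h'
      · exact absurd haU h2
      · exact absurd hbU h2
      · simp
    · rcases memU x h1 with h' | rfl | rfl | rfl
      · exact Or.inl h'
      · exact absurd haT h2
      · exact absurd hbT h2
      · simp
  · rw [Finset.mem_symmDiff]
    left
    refine ⟨hcT, fun h => ?_⟩
    rcases memU c h with h' | h' | h' | h'
    · exact hcA h'
    · exact hac h'.symm
    · exact hbc h'.symm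
    · exact hcd h'
  · rw [sum_symmDiff2, hT0, hU0, add_zero]


/-- the data of a vector configuration over the two element field with two disjoint
circuit hyperplanes -/
structure Conf [Finite ι] (v : ι → V) (H K : Set ι) (φ ψ : V →ₗ[ZMod 2] ZMod 2) (n : ℕ) :
    Prop where
  fin : Module.Finite (ZMod 2) V
  rank : Module.finrank (ZMod 2) V = n
  big : 4 ≤ n
  disj : Disjoint H K
  cardH : H.ncard = n
  cardK : K.ncard = n
  indH : ∀ h ∈ H, LinearIndepOn (ZMod 2) v (H \ {h})
  indK : ∀ h ∈ K, LinearIndepOn (ZMod 2) v (K \ {h})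
  onH : ∀ e ∈ H, φ (v e) = 0
  onK : ∀ e ∈ K, ψ (v e) = 0
  zeroH : ∀ e, φ (v e) = 0 → e ∈ H ∨ v e = 0
  zeroK : ∀ e, ψ (v e) = 0 → e ∈ K ∨ v e = 0

lemma Conf.symm [Finite ι] {v : ι → V} {H K : Set ι} {φ ψ : V →ₗ[ZMod 2] ZMod 2} {n : ℕ}
    (c : Conf v H K φ ψ n) : Conf v K H ψ φ n :=
  ⟨c.fin, c.rank, c.big, c.disj.symm, c.cardK, c.cardH, c.indK, c.indH, c.onK, c.onH,
    c.zeroK, c.zeroH⟩

section Conf

variable [Finite ι] {v : ι → V} {H K : Set ι} {φ ψ : V →ₗ[ZMod 2] ZMod 2} {n : ℕ}

lemma ncard_le_of_span (v : ι → V) [Module.Finite (ZMod 2) V] {I : Set ι}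
    (hI : LinearIndepOn (ZMod 2) v I) :
    Module.finrank (ZMod 2) (Submodule.span (ZMod 2) (v '' I)) = I.ncard := by
  classical
  have : Fintype ι := Fintype.ofFinite ι
  have h := finrank_span_eq_card (R := ZMod 2) (b := fun i : I => v i) hI
  rw [← Nat.card_eq_fintype_card, Nat.card_coe_set_eq] at h
  rw [← h, image_eq_range]

lemma Conf.ncard_le (c : Conf v H K φ ψ n) {I : Set ι} (hI : LinearIndepOn (ZMod 2) v I) :
    I.ncard ≤ n := by
  have := c.fin
  rw [← ncard_le_of_span v hI, ← c.rank]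
  exact Submodule.finrank_le _

lemma Conf.nonemptyH (c : Conf v H K φ ψ n) : H.Nonempty := by
  rw [← ncard_pos, c.cardH]
  have := c.big
  omega

/-- augmentation into the special set -/
lemma Conf.aug_special (c : Conf v H K φ ψ n) {I : Set ι} (hI : LinearIndepOn (ZMod 2) v I)
    (hcard : I.ncard < n) :
    ∃ e ∈ H, e ∉ I ∧ (LinearIndepOn (ZMod 2) v (insert e I) ∨ insert e I = H) := by
  have := c.fin
  by_cases hex : ∃ e ∈ H, v e ∉ Submodule.span (ZMod 2) (v '' I)
  · obtain ⟨e, he, hes⟩ := hex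
    have heI : e ∉ I := fun h => hes (Submodule.subset_span ⟨e, h, rfl⟩)
    exact ⟨e, he, heI, Or.inl ((linearIndepOn_insert heI).mpr ⟨hI, hes⟩)⟩
  · push Not at hex
    have hle : Submodule.span (ZMod 2) (v '' H) ≤ Submodule.span (ZMod 2) (v '' I) := by
      rw [Submodule.span_le]
      rintro _ ⟨e, he, rfl⟩
      exact hex e he
    obtain ⟨h0, hh0⟩ := c.nonemptyH
    have hsub : Submodule.span (ZMod 2) (v '' (H \ {h0})) ≤ Submodule.span (ZMod 2) (v '' H) :=
      Submodule.span_mono (image_mono sdiff_subset)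
    have h1 : Module.finrank (ZMod 2) (Submodule.span (ZMod 2) (v '' (H \ {h0}))) = n - 1 := by
      rw [ncard_le_of_span v (c.indH h0 hh0), ncard_sdiff_singleton_of_mem hh0, c.cardH]
    have h2 := Submodule.finrank_mono hsub
    have h3 := Submodule.finrank_mono hle
    have h4 := ncard_le_of_span v hI
    have hbig := c.big
    have heq : Submodule.span (ZMod 2) (v '' H) = Submodule.span (ZMod 2) (v '' I) :=
      Submodule.eq_of_le_of_finrank_le hle (by omega)
    have hIH : I ⊆ H := by
      intro i hi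
      have hmem : v i ∈ Submodule.span (ZMod 2) (v '' H) := by
        rw [heq]; exact Submodule.subset_span ⟨i, hi, rfl⟩
      have hker : Submodule.span (ZMod 2) (v '' H) ≤ LinearMap.ker φ := by
        rw [Submodule.span_le]
        rintro _ ⟨e, he, rfl⟩
        exact c.onH e he
      have h0 : φ (v i) = 0 := hker hmem
      rcases c.zeroH i h0 with h | h
      · exact h
      · exfalso
        rw [indep_iff_sum] at hI
        exact hI {i} (by simpa using hi) (by simp) (by simpa using h)
    have hIn : I.ncard = n - 1 := by omega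
    obtain ⟨e, heH, heI⟩ := exists_mem_notMem_of_ncard_lt_ncard (s := I) (t := H) (by
      rw [c.cardH]; exact hcard)
    refine ⟨e, heH, heI, Or.inr ?_⟩
    apply eq_of_subset_of_ncard_le (insert_subset heH hIH)
    rw [ncard_insert_of_notMem heI, c.cardH]
    omega

/-- independence after relaxing both circuit hyperplanes -/
def RInd (v : ι → V) (H K I : Set ι) : Prop :=
  LinearIndepOn (ZMod 2) v I ∨ I = H ∨ I = K

lemma Conf.rind_subset (c : Conf v H K φ ψ n) {I J : Set ι} (hJ : RInd v H K J) (hIJ : I ⊆ J) :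
    RInd v H K I := by
  rcases hJ with hJ | rfl | rfl
  · exact Or.inl (hJ.mono hIJ)
  · by_cases h : I = J
    · exact Or.inr (Or.inl h)
    · obtain ⟨x, hx, hxI⟩ := exists_of_ssubset (hIJ.ssubset_of_ne h)
      exact Or.inl ((c.indH x hx).mono (subset_sdiff_singleton hIJ hxI))
  · by_cases h : I = J
    · exact Or.inr (Or.inr h)
    · obtain ⟨x, hx, hxI⟩ := exists_of_ssubset (hIJ.ssubset_of_ne h)
      exact Or.inl ((c.indK x hx).mono (subset_sdiff_singleton hIJ hxI))

lemma Conf.rind_aug (c : Conf v H K φ ψ n) {I J : Set ι} (hI : RInd v H K I)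
    (hJ : RInd v H K J) (hlt : I.ncard < J.ncard) :
    ∃ e ∈ J, e ∉ I ∧ RInd v H K (insert e I) := by
  have := c.fin
  have hJn : J.ncard ≤ n := by
    rcases hJ with hJ | rfl | rfl
    · exact c.ncard_le hJ
    · exact c.cardH.le
    · exact c.cardK.le
  have hI' : LinearIndepOn (ZMod 2) v I := by
    rcases hI with hI | rfl | rfl
    · exact hI
    · rw [c.cardH] at hlt; omega
    · rw [c.cardK] at hlt; omega
  rcases hJ with hJ | rfl | rfl
  · by_contra hcon
    push Not at hcon
    have hle : Submodule.span (ZMod 2) (v '' J) ≤ Submodule.span (ZMod 2) (v '' I) := by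
      rw [Submodule.span_le]
      rintro _ ⟨e, he, rfl⟩
      by_contra hes
      have heI : e ∉ I := fun h => hes (Submodule.subset_span ⟨e, h, rfl⟩)
      exact hcon e he heI (Or.inl ((linearIndepOn_insert heI).mpr ⟨hI', hes⟩))
    have h3 := Submodule.finrank_mono hle
    rw [ncard_le_of_span v hI', ncard_le_of_span v hJ] at h3
    omega
  · obtain ⟨e, h1, h2, h3⟩ := c.aug_special hI' (by omega)
    exact ⟨e, h1, h2, h3.elim Or.inl (fun h => Or.inr (Or.inl h))⟩
  · obtain ⟨e, h1, h2, h3⟩ := c.symm.aug_special hI' (by omega)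
    exact ⟨e, h1, h2, h3.elim Or.inl (fun h => Or.inr (Or.inr h))⟩

/-- the matroid obtained by relaxing both circuit hyperplanes -/
def Conf.mat (c : Conf v H K φ ψ n) : Matroid ι :=
  (IndepMatroid.ofFinite (finite_univ : (univ : Set ι).Finite) (RInd v H K)
    (Or.inl (linearIndepOn_empty _ _)) (fun _ _ h1 h2 => c.rind_subset h1 h2)
    (fun _ _ h1 h2 h3 => c.rind_aug h1 h2 h3) (fun _ _ => subset_univ _)).matroid

lemma Conf.mat_E (c : Conf v H K φ ψ n) : c.mat.E = univ := rfl

lemma Conf.mat_indep (c : Conf v H K φ ψ n) (I : Set ι) : c.mat.Indep I ↔ RInd v H K I := Iff.rfl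


lemma Conf.twoSpecial (c : Conf v H K φ ψ n) : TwoSpecial c.mat H K := by
  rintro A a b c' d ⟨hA, ha, hb, hc, hd, haA, hbA, hcA, hdA, hab, hac, hbc, had, hbd, hcd, i1, i2,
    i3, i4, i5, i6, j1, j2⟩
  by_cases k1 : A ∪ {a, b} = H ∨ A ∪ {a, b} = K
  · exact ⟨a, b, Or.inl rfl, Or.inr (Or.inl rfl), i1, k1⟩
  by_cases k2 : A ∪ {a, c'} = H ∨ A ∪ {a, c'} = K
  · exact ⟨a, c', Or.inl rfl, Or.inr (Or.inr (Or.inl rfl)), i2, k2⟩
  by_cases k3 : A ∪ {b, c'} = H ∨ A ∪ {b, c'} = K
  · exact ⟨b, c', Or.inr (Or.inl rfl), Or.inr (Or.inr (Or.inl rfl)), i3, k3⟩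
  by_cases k4 : A ∪ {a, d} = H ∨ A ∪ {a, d} = K
  · exact ⟨a, d, Or.inl rfl, Or.inr (Or.inr (Or.inr rfl)), i4, k4⟩
  by_cases k5 : A ∪ {b, d} = H ∨ A ∪ {b, d} = K
  · exact ⟨b, d, Or.inr (Or.inl rfl), Or.inr (Or.inr (Or.inr rfl)), i5, k5⟩
  by_cases k6 : A ∪ {c', d} = H ∨ A ∪ {c', d} = K
  · exact ⟨c', d, Or.inr (Or.inr (Or.inl rfl)), Or.inr (Or.inr (Or.inr rfl)), i6, k6⟩
  exfalso
  have lin : ∀ S, c.mat.Indep S → ¬ (S = H ∨ S = K) → LinearIndepOn (ZMod 2) v S := by
    intro S h1 h2
    rcases h1 with h | h | h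
    · exact h
    · exact absurd (Or.inl h) h2
    · exact absurd (Or.inr h) h2
  exact no_cfg v A a b c' d haA hbA hcA hdA hab hac hbc had hbd hcd (lin _ i1 k1) (lin _ i2 k2)
    (lin _ i3 k3) (lin _ i4 k4) (lin _ i5 k5) (lin _ i6 k6) (fun h => j1 (Or.inl h))
    (fun h => j2 (Or.inl h))

/-- the special set is dependent before relaxing -/
lemma Conf.depH (c : Conf v H K φ ψ n) : ¬ LinearIndepOn (ZMod 2) v H := by
  intro h
  have := c.fin
  have h1 := ncard_le_of_span v h
  have hker : Submodule.span (ZMod 2) (v '' H) ≤ LinearMap.ker φ := by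
    rw [Submodule.span_le]
    rintro _ ⟨e, he, rfl⟩
    exact c.onH e he
  -- hence the functional vanishes identically, so every element of K lies in H or is zero
  have h2 : Submodule.span (ZMod 2) (v '' H) = ⊤ := by
    apply Submodule.eq_top_of_finrank_eq
    rw [h1, c.cardH, c.rank]
  rw [h2, top_le_iff, LinearMap.ker_eq_top] at hker
  obtain ⟨k0, hk0⟩ := c.symm.nonemptyH
  obtain ⟨k1, hk1, hk01⟩ : ∃ k1 ∈ K, k1 ≠ k0 := by
    by_contra hcon
    push Not at hcon
    have : K ⊆ {k0} := fun x hx => hcon x hx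
    have := ncard_le_ncard this
    rw [c.cardK, ncard_singleton] at this
    have := c.big
    omega
  have h0 : φ (v k1) = 0 := by rw [hker]; rfl
  rcases c.zeroH k1 h0 with h | h
  · exact Set.disjoint_left.mp c.disj h hk1
  · have h3 := c.indK k0 hk0
    rw [indep_iff_sum] at h3
    exact h3 {k1} (by simpa using ⟨hk1, hk01⟩) (by simp) (by simpa using h)

lemma Conf.pair_cfg (c : Conf v H K φ ψ n) {y y' : ι} (hy : y ∈ K) (hy' : y' ∈ K)
    (hne : y ≠ y') : ∃ h1 ∈ H, ∃ h2 ∈ H, h1 ≠ h2 ∧ Cfg c.mat (H \ {h1, h2}) h1 h2 y y' := by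
  classical
  have := c.fin
  have hdj := Set.disjoint_left.mp c.disj
  have hyH : y ∉ H := fun h => hdj h hy
  have hyH' : y' ∉ H := fun h => hdj h hy'
  -- nonzero vectors
  have hnz : ∀ k ∈ K, v k ≠ 0 := by
    intro k hk h
    obtain ⟨k1, hk1, hk01⟩ : ∃ k1 ∈ K, k1 ≠ k := by
      by_contra hcon
      push Not at hcon
      have : K ⊆ {k} := fun x hx => hcon x hx
      have := ncard_le_ncard this
      rw [c.cardK, ncard_singleton] at this
      have := c.big
      omega
    have h3 := c.indK k1 hk1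
    rw [indep_iff_sum] at h3
    exact h3 {k} (by simpa using ⟨hk, hk01.symm⟩) (by simp) (by simpa using h)
  have hφ1 : ∀ k ∈ K, φ (v k) = 1 := by
    intro k hk
    apply zmod2_eq_one
    intro h
    rcases c.zeroH k h with h' | h'
    · exact hdj h' hk
    · exact hnz k hk h'
  have hsum0 : v y + v y' ≠ 0 := by
    obtain ⟨k, hk, hk1⟩ : ∃ k ∈ K, k ∉ ({y, y'} : Set ι) := by
      by_contra hcon
      push Not at hcon
      have : K ⊆ {y, y'} := fun x hx => hcon x hx
      have := ncard_le_ncard this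
      rw [c.cardK, ncard_pair hne] at this
      have := c.big
      omega
    have h3 := c.indK k hk
    rw [indep_iff_sum] at h3
    have := h3 {y, y'} (by
      intro x hx
      simp only [Finset.coe_insert, Finset.coe_singleton, mem_insert_iff, mem_singleton_iff] at hx hk1
      push Not at hk1
      rcases hx with rfl | rfl
      · exact ⟨hy, fun h => hk1.1 (by rw [mem_singleton_iff] at h; exact h.symm)⟩
      · exact ⟨hy', fun h => hk1.2 (by rw [mem_singleton_iff] at h; exact h.symm)⟩) (by simp)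
    rwa [Finset.sum_pair hne] at this
  obtain ⟨h0, hh0⟩ := c.nonemptyH
  -- the sum of the two vectors lies in the span of the rest of H
  have hspan : Submodule.span (ZMod 2) (v '' (H \ {h0})) = LinearMap.ker φ := by
    apply Submodule.eq_of_le_of_finrank_le
    · rw [Submodule.span_le]
      rintro _ ⟨e, he, rfl⟩
      exact c.onH e he.1
    · rw [ncard_le_of_span v (c.indH h0 hh0), ncard_sdiff_singleton_of_mem hh0, c.cardH]
      have hlt : LinearMap.ker φ < ⊤ := by
        rw [lt_top_iff_ne_top]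
        intro h
        have h1 := hφ1 y hy
        have : v y ∈ LinearMap.ker φ := by rw [h]; trivial
        rw [LinearMap.mem_ker] at this
        rw [this] at h1
        exact absurd h1 (by decide)
      have := Submodule.finrank_lt hlt.ne
      rw [c.rank] at this
      omega
  have hmem : v y + v y' ∈ Submodule.span (ZMod 2) (v '' (H \ {h0})) := by
    rw [hspan, LinearMap.mem_ker, map_add, hφ1 y hy, hφ1 y' hy']
    decide
  obtain ⟨T, hT, hTs⟩ := (mem_span_iff_sum v _ _).mp hmem
  have hTne : T.Nonempty := by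
    rw [Finset.nonempty_iff_ne_empty]
    rintro rfl
    rw [Finset.sum_empty] at hTs
    exact hsum0 hTs
  obtain ⟨h1, hh1T⟩ := hTne
  have hh1 := hT hh1T
  have hh10 : h1 ≠ h0 := hh1.2
  refine ⟨h1, hh1.1, h0, hh0, hh10, ?_⟩
  have hA : (H \ {h1, h0}) ⊆ H := sdiff_subset
  -- the sum is not in the span of H minus the two elements
  have hnot : v y + v y' ∉ Submodule.span (ZMod 2) (v '' (H \ {h1, h0})) := by
    intro h
    obtain ⟨U, hU, hUs⟩ := (mem_span_iff_sum v _ _).mp h
    have h3 := c.indH h0 hh0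
    rw [indep_iff_sum] at h3
    refine h3 (symmDiff T U) ?_ ⟨h1, ?_⟩ ?_
    · intro x hx
      rw [Finset.mem_coe, Finset.mem_symmDiff] at hx
      rcases hx with ⟨hx, _⟩ | ⟨hx, _⟩
      · exact hT hx
      · have := hU hx
        exact ⟨this.1, fun h => this.2 (by rw [mem_singleton_iff] at h; simp [h])⟩
    · rw [Finset.mem_symmDiff]
      left
      exact ⟨hh1T, fun h => (hU h).2 (by simp)⟩
    · rw [sum_symmDiff2, ← hTs, ← hUs, add_self2]
  -- independence of proper subsets of H
  have hind : ∀ S, S ⊆ H → (∃ x ∈ H, x ∉ S) → LinearIndepOn (ZMod 2) v S := by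
    rintro S hS ⟨x, hx, hxS⟩
    exact (c.indH x hx).mono (subset_sdiff_singleton hS hxS)
  have hins : ∀ S, S ⊆ H → (∃ x ∈ H, x ∉ S) → ∀ k ∈ K, LinearIndepOn (ZMod 2) v (insert k S) := by
    intro S hS hx k hk
    have hkS : k ∉ S := fun h => hdj (hS h) hk
    refine (linearIndepOn_insert hkS).mpr ⟨hind S hS hx, ?_⟩
    intro h
    have hle : Submodule.span (ZMod 2) (v '' S) ≤ LinearMap.ker φ := by
      rw [Submodule.span_le]
      rintro _ ⟨e, he, rfl⟩
      exact c.onH e (hS he)
    have := hle h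
    rw [LinearMap.mem_ker, hφ1 k hk] at this
    exact absurd this (by decide)
  have e12 : (H \ {h1, h0}) ∪ {h1, h0} = H := by
    ext x; simp only [mem_union, mem_sdiff, mem_insert_iff, mem_singleton_iff]
    constructor
    · rintro (h | rfl | rfl)
      · exact h.1
      · exact hh1.1
      · exact hh0
    · intro h; tauto
  have pairK : ∀ h ∈ H, ∀ h' ∈ H, h ≠ h' → ({h, h'} : Set ι) = {h1, h0} → ∀ k ∈ K,
      c.mat.Indep ((H \ {h1, h0}) ∪ {h, k}) := by
    intro h hh h' hh' hhne heq k hk
    left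
    have : (H \ {h1, h0}) ∪ {h, k} = insert k (H \ {h'}) := by
      rw [← heq]
      ext x; simp only [mem_union, mem_sdiff, mem_insert_iff, mem_singleton_iff]
      constructor
      · rintro (h1 | rfl | rfl)
        · right; exact ⟨h1.1, fun h => h1.2 (Or.inr h)⟩
        · right; exact ⟨hh, hhne⟩
        · left; rfl
      · rintro (rfl | h1)
        · right; right; rfl
        · by_cases hx : x = h
          · right; left; exact hx
          · left; exact ⟨h1.1, fun h => h.elim hx h1.2⟩
    rw [this]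
    exact hins (H \ {h'}) sdiff_subset ⟨h', hh', fun h => h.2 rfl⟩ k hk
  refine ⟨subset_univ _, mem_univ _, mem_univ _, mem_univ _, mem_univ _, ?_, ?_, ?_, ?_, hh10,
    fun h => hyH (h ▸ hh1.1), fun h => hyH (h ▸ hh0), fun h => hyH' (h ▸ hh1.1),
    fun h => hyH' (h ▸ hh0), hne, ?_, ?_, ?_, ?_, ?_, ?_, ?_, ?_⟩
  · simp
  · simp
  · exact fun h => hyH h.1
  · exact fun h => hyH' h.1
  · rw [e12]; exact Or.inr (Or.inl rfl)
  · exact pairK h1 hh1.1 h0 hh0 hh10 rfl y hy
  · exact pairK h0 hh0 h1 hh1.1 hh10.symm (pair_comm _ _) y hy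
  · exact pairK h1 hh1.1 h0 hh0 hh10 rfl y' hy'
  · exact pairK h0 hh0 h1 hh1.1 hh10.symm (pair_comm _ _) y' hy'
  · left
    have : (H \ {h1, h0}) ∪ {y, y'} = insert y' (insert y (H \ {h1, h0})) := by
      ext x; simp only [mem_union, mem_insert_iff, mem_singleton_iff]; tauto
    rw [this]
    have h5 := hins (H \ {h1, h0}) sdiff_subset ⟨h1, hh1.1, by simp⟩ y hy
    refine (linearIndepOn_insert ?_).mpr ⟨h5, ?_⟩
    · rintro (h | h)
      · exact hne h.symm
      · exact hyH' h.1
    · intro h
      obtain ⟨U, hU, hUs⟩ := (mem_span_iff_sum v _ _).mp h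
      by_cases hyU : y ∈ U
      · apply hnot
        have : v y + v y' = ∑ i ∈ U.erase y, v i := by
          rw [hUs, ← Finset.add_sum_erase U v hyU, ← add_assoc, add_self2, zero_add]
        rw [this]
        refine Submodule.sum_mem _ fun i hi => Submodule.subset_span ⟨i, ?_, rfl⟩
        rw [Finset.mem_erase] at hi
        rcases hU hi.2 with h | h
        · exact absurd h hi.1
        · exact h
      · have h6 : φ (v y') = 0 := by
          rw [hUs, map_sum]
          apply Finset.sum_eq_zero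
          intro i hi
          rcases hU hi with h | h
          · exact absurd (h ▸ hi) hyU
          · exact c.onH i h.1
        rw [hφ1 y' hy'] at h6
        exact absurd h6 (by decide)
  · rintro (h | h | h)
    · exact c.depH (h.mono (by
        intro x hx
        by_cases hx' : x ∈ ({h1, h0} : Set ι)
        · right; simp only [mem_insert_iff, mem_singleton_iff] at hx' ⊢; tauto
        · exact Or.inl ⟨hx, hx'⟩))
    · exact hyH (h ▸ Or.inr (by simp))
    · exact hdj hh1.1 (h ▸ Or.inr (by simp))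
  · rintro (h | h | h)
    · exact c.depH (h.mono (by
        intro x hx
        by_cases hx' : x ∈ ({h1, h0} : Set ι)
        · right; simp only [mem_insert_iff, mem_singleton_iff] at hx' ⊢; tauto
        · exact Or.inl ⟨hx, hx'⟩))
    · exact hyH' (h ▸ Or.inr (by simp))
    · exact hdj hh1.1 (h ▸ Or.inr (by simp))


lemma Conf.mat_symm (c : Conf v H K φ ψ n) : c.symm.mat = c.mat := by
  refine Matroid.ext_indep (M₁ := c.symm.mat) (M₂ := c.mat) rfl ?_
  intro I _
  rw [c.symm.mat_indep, c.mat_indep, RInd, RInd]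
  tauto

lemma Conf.star (c : Conf v H K φ ψ n) : Star c.mat := by
  have hbig := c.big
  have two : ∀ (S : Set ι) (e : ι), S.ncard = n → ∃ y ∈ S, ∃ y' ∈ S, y ≠ y' ∧ y ≠ e ∧ y' ≠ e := by
    intro S e hS
    have h1 : 1 < (S \ {e}).ncard := by
      have := le_ncard_sdiff {e} S
      rw [hS, ncard_singleton] at this
      omega
    obtain ⟨a, ha, b, hb, hab⟩ := (one_lt_ncard (toFinite _)).mp h1
    exact ⟨a, ha.1, b, hb.1, hab, ha.2, hb.2⟩
  obtain ⟨k0, hk0⟩ := c.symm.nonemptyH
  obtain ⟨y, hy, y', hy', hyy, _, _⟩ := two K k0 c.cardK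
  obtain ⟨h1, hh1, h2, hh2, _, hC⟩ := c.pair_cfg hy hy' hyy
  obtain ⟨e, heH, he⟩ : ∃ e ∈ H, e ∉ ({h1, h2} : Set ι) := by
    by_contra hcon
    push Not at hcon
    have : H ⊆ {h1, h2} := fun x hx => hcon x hx
    have := ncard_le_ncard this
    rw [c.cardH] at this
    have := ncard_insert_le h1 {h2}
    rw [ncard_singleton] at this
    omega
  obtain ⟨z, hz, z', hz', hzz, hze, hze'⟩ := two H e c.cardH
  obtain ⟨k1, hk1, k2, hk2, _, hC'⟩ := c.symm.pair_cfg hz hz' hzz
  rw [c.mat_symm] at hC'
  have hdj := Set.disjoint_left.mp c.disj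
  exact ⟨e, ⟨_, _, _, _, _, hC', fun h => hdj heH h.1, fun h => hdj heH (h ▸ hk1),
    fun h => hdj heH (h ▸ hk2), hze.symm, hze'.symm⟩, ⟨_, _, _, _, _, hC, ⟨heH, he⟩⟩⟩

lemma Conf.eRank (c : Conf v H K φ ψ n) : c.mat.eRank = n := by
  have := c.fin
  apply le_antisymm
  · rw [Matroid.eRank_def, Matroid.eRk_le_iff]
    intro I _ hI
    have hIf : I.Finite := toFinite I
    rw [← hIf.cast_ncard_eq]
    norm_cast
    rcases hI with hI | rfl | rfl
    · exact c.ncard_le hI
    · exact c.cardH.le
    · exact c.cardK.le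
  · have hI : c.mat.Indep H := Or.inr (Or.inl rfl)
    have h := hI.encard_le_eRank
    rw [← (toFinite H).cast_ncard_eq, c.cardH] at h
    exact h

lemma Conf.le_eRk (c : Conf v H K φ ψ n) (X : Set ι) :
    (Module.finrank (ZMod 2) (Submodule.span (ZMod 2) (v '' X)) : ℕ∞) ≤ c.mat.eRk X := by
  have := c.fin
  obtain ⟨b, hbX, _, hspan, hb⟩ := exists_linearIndepOn_extension (K := ZMod 2) (v := v)
    (linearIndepOn_empty (ZMod 2) v) (empty_subset X)
  have heq : Submodule.span (ZMod 2) (v '' X) = Submodule.span (ZMod 2) (v '' b) := by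
    apply le_antisymm
    · rw [Submodule.span_le]; exact hspan
    · exact Submodule.span_mono (image_mono hbX)
  rw [heq, ncard_le_of_span v hb, (toFinite b).cast_ncard_eq]
  have hI : c.mat.Indep b := Or.inl hb
  exact hI.encard_le_eRk_of_subset hbX

lemma Conf.tutte (c : Conf v H K φ ψ n) (k : ℕ) (hk : 1 ≤ k)
    (hconn : ∀ X : Set ι, n + min (min X.ncard Xᶜ.ncard) (k - 1) ≤
      Module.finrank (ZMod 2) (Submodule.span (ZMod 2) (v '' X)) +
      Module.finrank (ZMod 2) (Submodule.span (ZMod 2) (v '' Xᶜ)))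
    (C : Set ι) (hC : C.ncard = k) (hCd : ¬ RInd v H K C) (hCc : k ≤ Cᶜ.ncard) :
    HasTutteConnectivity c.mat k := by
  refine ⟨⟨hk, C, subset_univ _, ?_, ?_, ?_⟩, ?_⟩
  · rw [← (toFinite C).cast_ncard_eq, hC]
  · rw [c.mat_E, ← compl_eq_univ_sdiff, ← (toFinite Cᶜ).cast_ncard_eq]
    exact_mod_cast hCc
  · have h1 : c.mat.eRk C < C.encard := by
      apply Matroid.eRk_lt_encard_of_dep_of_finite (toFinite C)
      exact ⟨hCd, subset_univ _⟩
    have h2 : c.mat.eRk C + 1 ≤ k := by
      rw [← (toFinite C).cast_ncard_eq, hC] at h1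
      exact Order.add_one_le_of_lt h1
    calc c.mat.eRk C + c.mat.eRk (c.mat.E \ C) + 1
        = c.mat.eRk (c.mat.E \ C) + (c.mat.eRk C + 1) := by ring
      _ ≤ c.mat.eRank + k := add_le_add (Matroid.eRk_le_eRank _ _) h2
  · rintro j ⟨hj, X, _, h1, h2, h3⟩
    by_contra hlt
    rw [not_le] at hlt
    rw [c.mat_E, ← compl_eq_univ_sdiff] at h2 h3
    rw [← (toFinite X).cast_ncard_eq] at h1
    rw [← (toFinite Xᶜ).cast_ncard_eq] at h2
    have h1' : j ≤ X.ncard := by exact_mod_cast h1
    have h2' : j ≤ Xᶜ.ncard := by exact_mod_cast h2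
    have h4 := hconn X
    have h5 : n + j ≤ Module.finrank (ZMod 2) (Submodule.span (ZMod 2) (v '' X)) +
      Module.finrank (ZMod 2) (Submodule.span (ZMod 2) (v '' Xᶜ)) := by
      refine le_trans ?_ h4
      have : j ≤ min (min X.ncard Xᶜ.ncard) (k - 1) := by
        simp only [le_min_iff]; omega
      omega
    have h6 : ((n + j : ℕ) : ℕ∞) ≤ c.mat.eRk X + c.mat.eRk Xᶜ := by
      refine le_trans ?_ (add_le_add (c.le_eRk X) (c.le_eRk Xᶜ))
      exact_mod_cast h5
    rw [c.eRank] at h3
    have h7 : ((n + j : ℕ) : ℕ∞) + 1 ≤ ((n + j : ℕ) : ℕ∞) := by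
      calc ((n + j : ℕ) : ℕ∞) + 1 ≤ c.mat.eRk X + c.mat.eRk Xᶜ + 1 := by gcongr
        _ ≤ n + j := h3
        _ = ((n + j : ℕ) : ℕ∞) := by push_cast; rfl
    have h8 : n + j + 1 ≤ n + j := by exact_mod_cast h7
    omega

end Conf

end Lin


section Base

variable (m : ℕ)

/-- points of the cube -/
abbrev Gam (m : ℕ) : Type := Fin m → ZMod 2

/-- the ambient space -/
abbrev Vsp (m : ℕ) : Type := Gam m → ZMod 2

/-- the zero vector and the unit vectors of the cube -/
def sg (m : ℕ) : Option (Fin m) → Gam m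
  | none => 0
  | some i => Pi.single i 1

/-- subtract the value at the origin -/
def qm : Vsp m →ₗ[ZMod 2] Vsp m where
  toFun a := fun x => a x + a 0
  map_add' a b := by ext x; simp only [Pi.add_apply]; ring
  map_smul' c a := by ext x; simp only [Pi.smul_apply, smul_eq_mul, RingHom.id_apply]; ring

/-- sum over the ball of radius one -/
def Dm : Vsp m →ₗ[ZMod 2] Vsp m where
  toFun a := fun x => ∑ s : Option (Fin m), a (x + sg m s)
  map_add' a b := by ext x; simp only [Pi.add_apply, Finset.sum_add_distrib]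
  map_smul' c a := by
    ext x; simp only [Pi.smul_apply, smul_eq_mul, RingHom.id_apply, Finset.mul_sum]

/-- sum of all values -/
def tot : Vsp m →ₗ[ZMod 2] ZMod 2 where
  toFun a := ∑ x, a x
  map_add' a b := by simp only [Pi.add_apply, Finset.sum_add_distrib]
  map_smul' c a := by simp only [Pi.smul_apply, smul_eq_mul, RingHom.id_apply, Finset.mul_sum]

/-- value at the origin -/
def ev : Vsp m →ₗ[ZMod 2] ZMod 2 where
  toFun a := a 0
  map_add' _ _ := rfl
  map_smul' _ _ := rfl

lemma z2_add_self (x : ZMod 2) : x + x = 0 := by revert x; decide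

lemma gam_add_self (x : Gam m) : x + x = 0 := by
  ext i; simp only [Pi.add_apply, Pi.zero_apply]; exact z2_add_self _

/-- a symmetric double sum in characteristic two is its diagonal -/
lemma sum_symm_diag {S : Type*} [Fintype S] [DecidableEq S] (g : S → S → ZMod 2)
    (hg : ∀ s t, g s t = g t s) : ∑ s, ∑ t, g s t = ∑ s, g s s := by
  rw [← Finset.sum_product']
  have hsplit := Finset.sum_filter_add_sum_filter_not (Finset.univ ×ˢ Finset.univ : Finset (S × S))
    (fun p => p.1 = p.2) (fun p => g p.1 p.2)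
  rw [← hsplit]
  have h0 : ∑ p ∈ (Finset.univ ×ˢ Finset.univ : Finset (S × S)).filter (fun p => ¬ p.1 = p.2),
      g p.1 p.2 = 0 := by
    apply Finset.sum_involution (fun p _ => (p.2, p.1))
    · intro p _
      simp only
      rw [hg p.2 p.1]
      exact z2_add_self _
    · intro p hp _ h
      simp only [Finset.mem_filter] at hp
      apply hp.2
      have := congrArg Prod.snd h
      exact this
    · intro p hp
      simp only [Finset.mem_filter, Finset.mem_product, Finset.mem_univ, true_and, and_true] at hp ⊢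
      exact fun h => hp h.symm
    · intro p _
      rfl
  rw [h0, add_zero]
  symm
  apply Finset.sum_bij (fun (s : S) _ => (s, s))
  · intro s _; simp
  · intro s _ t _ h; exact congrArg Prod.fst h
  · rintro ⟨s, t⟩ hp
    simp only [Finset.mem_filter, Finset.mem_product, Finset.mem_univ, true_and] at hp
    exact ⟨s, Finset.mem_univ _, by rw [hp]⟩
  · intro s _; rfl

lemma Dm_Dm (hm : Even m) (a : Vsp m) : Dm m (Dm m a) = a := by
  ext x
  change ∑ s : Option (Fin m), ∑ t : Option (Fin m), a (x + sg m s + sg m t) = a x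
  rw [sum_symm_diag (fun s t => a (x + sg m s + sg m t)) (fun s t => by
    rw [add_right_comm])]
  have : ∀ s : Option (Fin m), a (x + sg m s + sg m s) = a x := by
    intro s; rw [add_assoc, gam_add_self, add_zero]
  simp only [this, Finset.sum_const, Finset.card_univ, Fintype.card_option, Fintype.card_fin]
  obtain ⟨r, hr⟩ := hm
  rw [nsmul_eq_mul]
  have : ((m + 1 : ℕ) : ZMod 2) = 1 := by
    rw [hr]; push_cast
    have := z2_add_self (r : ZMod 2)
    rw [this, zero_add]
  rw [this, one_mul]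

lemma Dm_const (hm : Even m) (c : ZMod 2) : Dm m (fun _ => c) = fun _ => c := by
  ext x
  change ∑ s : Option (Fin m), c = c
  simp only [Finset.sum_const, Finset.card_univ, Fintype.card_option, Fintype.card_fin]
  obtain ⟨r, hr⟩ := hm
  rw [nsmul_eq_mul]
  have : ((m + 1 : ℕ) : ZMod 2) = 1 := by
    rw [hr]; push_cast
    have := z2_add_self (r : ZMod 2)
    rw [this, zero_add]
  rw [this, one_mul]

lemma tot_Dm (hm : Even m) (a : Vsp m) : tot m (Dm m a) = tot m a := by
  change ∑ x, ∑ s : Option (Fin m), a (x + sg m s) = ∑ x, a x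
  rw [Finset.sum_comm]
  have : ∀ s : Option (Fin m), ∑ x, a (x + sg m s) = ∑ x, a x := by
    intro s
    exact Fintype.sum_equiv (Equiv.addRight (sg m s)) _ _ (fun x => rfl)
  simp only [this, Finset.sum_const, Finset.card_univ, Fintype.card_option, Fintype.card_fin]
  obtain ⟨r, hr⟩ := hm
  rw [nsmul_eq_mul]
  have : ((m + 1 : ℕ) : ZMod 2) = 1 := by
    rw [hr]; push_cast
    have := z2_add_self (r : ZMod 2)
    rw [this, zero_add]
  rw [this, one_mul]

lemma card_gam : Fintype.card (Gam m) = 2 ^ m := by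
  simp

lemma tot_qm (hm : 1 ≤ m) (a : Vsp m) : tot m (qm m a) = tot m a := by
  change ∑ x, (a x + a 0) = ∑ x, a x
  rw [Finset.sum_add_distrib, Finset.sum_const, Finset.card_univ, card_gam, nsmul_eq_mul]
  have : ((2 ^ m : ℕ) : ZMod 2) = 0 := by
    obtain ⟨r, rfl⟩ := Nat.exists_eq_add_of_le' hm
    push_cast
    rw [pow_succ]
    have : (2 : ZMod 2) = 0 := by decide
    rw [this, mul_zero]
  rw [this, zero_mul, add_zero]

lemma ev_qm (a : Vsp m) : ev m (qm m a) = 0 := by
  change a 0 + a 0 = 0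
  exact z2_add_self _

/-- the unit vector of the ambient space -/
def eu (x : Gam m) : Vsp m := Pi.single x 1

/-- the base vectors -/
def bw : Gam m ⊕ Gam m → Vsp m
  | Sum.inl x => qm m (eu m x)
  | Sum.inr y => qm m (Dm m (eu m y)) + eu m 0

lemma ev_eu0 : ev m (eu m 0) = 1 := by
  simp [ev, eu]

lemma tot_eu (x : Gam m) : tot m (eu m x) = 1 := by
  simp [tot, eu]

lemma ev_bw_inl (x : Gam m) : ev m (bw m (Sum.inl x)) = 0 := ev_qm m _

lemma ev_bw_inr (x : Gam m) : ev m (bw m (Sum.inr x)) = 1 := by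
  rw [bw, map_add, ev_qm, ev_eu0, zero_add]

lemma tot_bw_inl (hm : 1 ≤ m) (x : Gam m) : tot m (bw m (Sum.inl x)) = 1 := by
  rw [bw, tot_qm m hm, tot_eu]

lemma tot_bw_inr (hm : 1 ≤ m) (hm2 : Even m) (x : Gam m) : tot m (bw m (Sum.inr x)) = 0 := by
  rw [bw, map_add, tot_qm m hm, tot_Dm m hm2, tot_eu, tot_eu]; decide

/-- indicator of a finite set of points -/
def ind (T : Finset (Gam m)) : Vsp m := fun x => if x ∈ T then 1 else 0

lemma ind_eq (T : Finset (Gam m)) : ind m T = ∑ x ∈ T, eu m x := by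
  ext y
  simp only [ind, Finset.sum_apply, eu, Pi.single_apply]
  rw [Finset.sum_ite_eq]

lemma sum_bw (T : Finset (Gam m ⊕ Gam m)) :
    ∑ i ∈ T, bw m i = qm m (ind m T.toLeft + Dm m (ind m T.toRight)) + (T.toRight.card : ZMod 2) • eu m 0 := by
  have h : ∑ i ∈ T, bw m i = ∑ x ∈ T.toLeft, bw m (Sum.inl x) + ∑ y ∈ T.toRight, bw m (Sum.inr y) := by
    conv_lhs => rw [← Finset.toLeft_disjSum_toRight (u := T)]
    rw [Finset.sum_disjSum]
  rw [h]
  simp only [bw, Finset.sum_add_distrib, map_add, ind_eq, map_sum, Finset.sum_const]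
  rw [add_assoc]
  congr 2
  rw [← Nat.cast_smul_eq_nsmul (ZMod 2)]

/-- if a subset sum of base vectors vanishes then the coefficient function is constant -/
lemma sum_bw_zero {T : Finset (Gam m ⊕ Gam m)} (h : ∑ i ∈ T, bw m i = 0) (x : Gam m) :
    (ind m T.toLeft + Dm m (ind m T.toRight)) x = (ind m T.toLeft + Dm m (ind m T.toRight)) 0 := by
  rw [sum_bw] at h
  have hc : (T.toRight.card : ZMod 2) = 0 := by
    have := congrArg (ev m) h
    rw [map_add, ev_qm, map_smul, ev_eu0, map_zero] at this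
    simpa using this
  rw [hc, zero_smul, add_zero] at h
  have := congrFun h x
  change (ind m T.toLeft + Dm m (ind m T.toRight)) x + (ind m T.toLeft + Dm m (ind m T.toRight)) 0 = 0 at this
  generalize (ind m T.toLeft + Dm m (ind m T.toRight)) x = a at this ⊢
  generalize (ind m T.toLeft + Dm m (ind m T.toRight)) 0 = b at this ⊢
  revert this; revert a b; decide


lemma ind_mem {T : Finset (Gam m)} {x : Gam m} (h : x ∈ T) : ind m T x = 1 := by
  rw [ind, if_pos h]

lemma ind_notMem {T : Finset (Gam m)} {x : Gam m} (h : x ∉ T) : ind m T x = 0 := by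
  rw [ind, if_neg h]

/-- a proper nonempty subset of the first part has nonzero sum -/
lemma sum_bw_left {T : Finset (Gam m ⊕ Gam m)} (hR : T.toRight = ∅) (hne : T.Nonempty)
    {z : Gam m} (hz : Sum.inl z ∉ T) : ∑ i ∈ T, bw m i ≠ 0 := by
  intro h
  have hc := sum_bw_zero m h
  rw [hR] at hc
  have h0 : ind m (∅ : Finset (Gam m)) = 0 := by ext x; simp [ind]
  rw [h0, map_zero, add_zero] at hc
  obtain ⟨i, hi⟩ := hne
  rcases i with x | y
  · have h1 := hc x
    have h2 := hc z
    rw [ind_mem m (by simpa using hi)] at h1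
    rw [ind_notMem m (by simpa using hz), ← h1] at h2
    exact absurd h2 (by decide)
  · have : y ∈ T.toRight := by simpa using hi
    rw [hR] at this
    simp at this

/-- a proper nonempty subset of the second part has nonzero sum -/
lemma sum_bw_right (hm : Even m) {T : Finset (Gam m ⊕ Gam m)} (hL : T.toLeft = ∅) (hne : T.Nonempty)
    {z : Gam m} (hz : Sum.inr z ∉ T) : ∑ i ∈ T, bw m i ≠ 0 := by
  intro h
  have hc := sum_bw_zero m h
  rw [hL] at hc
  have h0 : ind m (∅ : Finset (Gam m)) = 0 := by ext x; simp [ind]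
  rw [h0, zero_add] at hc
  have hconst : Dm m (ind m T.toRight) = fun _ => Dm m (ind m T.toRight) 0 := by
    ext x; exact hc x
  have h1 : ind m T.toRight = fun _ => Dm m (ind m T.toRight) 0 := by
    have := congrArg (Dm m) hconst
    rw [Dm_Dm m hm, Dm_const m hm] at this
    exact this
  obtain ⟨i, hi⟩ := hne
  rcases i with x | y
  · have : x ∈ T.toLeft := by simpa using hi
    rw [hL] at this
    simp at this
  · have h2 := congrFun h1 y
    have h3 := congrFun h1 z
    rw [ind_mem m (by simpa using hi)] at h2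
    rw [ind_notMem m (by simpa using hz)] at h3
    rw [← h2] at h3
    exact absurd h3 (by decide)

/-- at most two directions from a point reach the ball around another point -/
lemma bad_card (y y' : Gam m) (hne : y' ≠ y) :
    (Finset.univ.filter (fun i : Fin m => ∃ s, y + sg m (some i) + sg m s = y')).card ≤ 2 := by
  classical
  rcases Finset.eq_empty_or_nonempty
    (Finset.univ.filter (fun i : Fin m => ∃ s, y + sg m (some i) + sg m s = y')) with h | ⟨i, hi⟩
  · rw [h]; simp
  · simp only [Finset.mem_filter, Finset.mem_univ, true_and] at hi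
    obtain ⟨s, hs⟩ := hi
    have hsub : Finset.univ.filter (fun j : Fin m => ∃ s, y + sg m (some j) + sg m s = y') ⊆
        insert i s.toFinset := by
      intro j hj
      simp only [Finset.mem_filter, Finset.mem_univ, true_and] at hj
      obtain ⟨t, ht⟩ := hj
      -- the difference is nonzero at j
      have htj : t ≠ some j := by
        rintro rfl
        rw [add_assoc, gam_add_self, add_zero] at ht
        exact hne ht.symm
      have e1 : (sg m (some j) + sg m t) j = 1 := by
        rw [Pi.add_apply]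
        have : sg m t j = 0 := by
          rcases t with _ | t
          · rfl
          · have : j ≠ t := fun h => htj (by rw [h])
            simp [sg, this]
        rw [this]; simp [sg]
      have e2 : sg m (some i) + sg m s = sg m (some j) + sg m t := by
        have : y + (sg m (some i) + sg m s) = y + (sg m (some j) + sg m t) := by
          rw [← add_assoc, ← add_assoc, hs, ht]
        exact add_left_cancel this
      rw [← e2, Pi.add_apply] at e1
      by_contra hcon
      simp only [Finset.mem_insert, Option.mem_toFinset, Option.mem_def, not_or] at hcon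
      obtain ⟨c1, c2⟩ := hcon
      have f1 : sg m (some i) j = 0 := by simp [sg, c1]
      have f2 : sg m s j = 0 := by
        rcases s with _ | s
        · rfl
        · have : j ≠ s := fun h => c2 (by rw [h])
          simp [sg, this]
      rw [f1, f2] at e1
      exact absurd e1 (by decide)
    calc _ ≤ _ := Finset.card_le_card hsub
      _ ≤ _ := Finset.card_insert_le _ _
      _ ≤ 2 := by
        have : s.toFinset.card ≤ 1 := by
          rcases s with _ | s <;> simp
        omega

/-- small nonempty sets of base vectors have nonzero sum -/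
lemma sum_bw_small (s : ℕ) (h1 : 2 * s ≤ m) (h2 : s * (m + 2) < 2 ^ m)
    {T : Finset (Gam m ⊕ Gam m)} (hne : T.Nonempty) (hT : T.card ≤ s) :
    ∑ i ∈ T, bw m i ≠ 0 := by
  classical
  have hcard : T.toLeft.card + T.toRight.card = T.card := Finset.card_toLeft_add_card_toRight
  rcases Finset.eq_empty_or_nonempty T.toRight with hR | ⟨y, hy⟩
  · -- only left elements
    obtain ⟨z, hz⟩ : ∃ z : Gam m, z ∉ T.toLeft := by
      by_contra hcon
      push Not at hcon
      have : (Finset.univ : Finset (Gam m)).card ≤ T.toLeft.card :=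
        Finset.card_le_card (fun x _ => hcon x)
      rw [Finset.card_univ, card_gam] at this
      have : s ≤ s * (m + 2) := Nat.le_mul_of_pos_right _ (by omega)
      omega
    exact sum_bw_left m hR hne (z := z) (by simpa using hz)
  · intro h
    have hc := sum_bw_zero m h
    -- a point where the function vanishes
    obtain ⟨x0, hx0⟩ : ∃ x0 : Gam m, x0 ∉ T.toLeft ∪ T.toRight.biUnion
        (fun y => Finset.univ.image (fun s : Option (Fin m) => y + sg m s)) := by
      by_contra hcon
      push Not at hcon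
      have h3 : (Finset.univ : Finset (Gam m)).card ≤ (T.toLeft ∪ T.toRight.biUnion
        (fun y => Finset.univ.image (fun s : Option (Fin m) => y + sg m s))).card :=
        Finset.card_le_card (fun x _ => hcon x)
      have h4 : (T.toRight.biUnion
        (fun y => Finset.univ.image (fun s : Option (Fin m) => y + sg m s))).card ≤
          T.toRight.card * (m + 1) := by
        apply Finset.card_biUnion_le_card_mul
        intro y _
        calc _ ≤ (Finset.univ : Finset (Option (Fin m))).card := Finset.card_image_le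
          _ = m + 1 := by simp
      rw [Finset.card_univ, card_gam] at h3
      have h5 := Finset.card_union_le T.toLeft (T.toRight.biUnion
        (fun y => Finset.univ.image (fun s : Option (Fin m) => y + sg m s)))
      have h6 : T.toLeft.card + T.toRight.card * (m + 1) ≤ s * (m + 2) := by
        have : T.toLeft.card ≤ s := by omega
        have h7 : T.toRight.card ≤ s := by omega
        nlinarith
      omega
    simp only [Finset.mem_union, Finset.mem_biUnion, Finset.mem_image, Finset.mem_univ, true_and,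
      not_or, not_exists, not_and] at hx0
    have hv0 : (ind m T.toLeft + Dm m (ind m T.toRight)) x0 = 0 := by
      rw [Pi.add_apply, ind_notMem m hx0.1, zero_add]
      change ∑ s : Option (Fin m), ind m T.toRight (x0 + sg m s) = 0
      apply Finset.sum_eq_zero
      intro s _
      apply ind_notMem
      intro hmem
      exact hx0.2 _ hmem s (by rw [add_assoc, gam_add_self, add_zero])
    -- a point where the function is one
    obtain ⟨i, hi⟩ : ∃ i : Fin m, i ∉
        (Finset.univ.filter (fun i : Fin m => y + sg m (some i) ∈ T.toLeft)) ∪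
        (T.toRight.erase y).biUnion (fun y' =>
          Finset.univ.filter (fun i : Fin m => ∃ s, y + sg m (some i) + sg m s = y')) := by
      by_contra hcon
      push Not at hcon
      have h3 : (Finset.univ : Finset (Fin m)).card ≤ _ :=
        Finset.card_le_card (fun x _ => hcon x)
      rw [Finset.card_univ, Fintype.card_fin] at h3
      have h5 := Finset.card_union_le
        (Finset.univ.filter (fun i : Fin m => y + sg m (some i) ∈ T.toLeft))
        ((T.toRight.erase y).biUnion (fun y' =>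
          Finset.univ.filter (fun i : Fin m => ∃ s, y + sg m (some i) + sg m s = y')))
      have h4 : ((T.toRight.erase y).biUnion (fun y' =>
          Finset.univ.filter (fun i : Fin m => ∃ s, y + sg m (some i) + sg m s = y'))).card ≤
          (T.toRight.erase y).card * 2 := by
        apply Finset.card_biUnion_le_card_mul
        intro y' hy'
        exact bad_card m y y' (Finset.ne_of_mem_erase hy')
      rw [Finset.card_erase_of_mem hy] at h4
      have h6 : (Finset.univ.filter (fun i : Fin m => y + sg m (some i) ∈ T.toLeft)).card ≤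
          T.toLeft.card := by
        apply Finset.card_le_card_of_injOn (fun i => y + sg m (some i))
        · intro i hi
          simpa using hi
        · intro i _ j _ hij
          have h7 : sg m (some i) = sg m (some j) := add_left_cancel hij
          by_contra hne
          have h8 := congrFun h7 i
          simp [sg, hne] at h8
      have h7 : 1 ≤ T.toRight.card := Finset.card_pos.mpr ⟨y, hy⟩
      omega
    simp only [Finset.mem_union, Finset.mem_biUnion, Finset.mem_filter, Finset.mem_univ, true_and,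
      not_or, not_exists, not_and, Finset.mem_erase] at hi
    have hv1 : (ind m T.toLeft + Dm m (ind m T.toRight)) (y + sg m (some i)) = 1 := by
      rw [Pi.add_apply, ind_notMem m hi.1, zero_add]
      change ∑ s : Option (Fin m), ind m T.toRight (y + sg m (some i) + sg m s) = 1
      rw [Finset.sum_eq_single (some i)]
      · rw [add_assoc, gam_add_self, add_zero]
        exact ind_mem m hy
      · intro s _ hs
        apply ind_notMem
        intro hmem
        refine hi.2 _ ⟨?_, hmem⟩ s rfl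
        intro heq
        have h8 : sg m (some i) + sg m s = 0 := by
          have : y + (sg m (some i) + sg m s) = y + 0 := by rw [← add_assoc, heq, add_zero]
          exact add_left_cancel this
        have h9 := congrFun h8 i
        rw [Pi.add_apply] at h9
        have h10 : sg m s i = 0 := by
          rcases s with _ | s
          · rfl
          · have : i ≠ s := fun h => hs (by rw [h])
            simp [sg, this]
        rw [h10] at h9
        simp [sg] at h9
      · intro h; exact absurd (Finset.mem_univ _) h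
    have h3 := hc x0
    have h4 := hc (y + sg m (some i))
    rw [hv0] at h3
    rw [hv1, ← h3] at h4
    exact absurd h4 (by decide)

end Base


section Random

lemma z2_cases (x : ZMod 2) : x = 0 ∨ x = 1 := by revert x; decide

/-- the number of small subsets -/
lemma card_small_finsets (E : Type) [Fintype E] [DecidableEq E] (s : ℕ) :
    (Finset.univ.filter (fun T : Finset E => T.card ≤ s)).card ≤ (Fintype.card E + 1) ^ s := by
  classical
  have h : (Finset.univ.filter (fun T : Finset E => T.card ≤ s)).card ≤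
      (Finset.univ : Finset (Fin s → Option E)).card := by
    apply Finset.card_le_card_of_surjOn
      (fun t : Fin s → Option E => Finset.univ.filter (fun e => ∃ i, t i = some e))
    intro T hT
    simp only [Finset.coe_filter, Finset.mem_univ, true_and, mem_ofPred_eq] at hT
    refine ⟨fun i => if h : i.val < T.card then some (T.equivFin.symm ⟨i.val, h⟩ : E) else none,
      by simp, ?_⟩
    ext e
    simp only [Finset.mem_filter, Finset.mem_univ, true_and]
    constructor
    · rintro ⟨i, hi⟩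
      split_ifs at hi with h
      · rw [Option.some_inj] at hi
        rw [← hi]
        exact (T.equivFin.symm ⟨i.val, h⟩).2
    · intro he
      have hlt := (T.equivFin ⟨e, he⟩).2
      refine ⟨⟨(T.equivFin ⟨e, he⟩).val, by omega⟩, ?_⟩
      rw [dif_pos hlt]
      simp
  refine h.trans ?_
  simp

variable {V : Type} [AddCommGroup V] [Module (ZMod 2) V] [Fintype V] [DecidableEq V]

omit [Fintype V] [DecidableEq V] in
lemma vadd_self (w : V) : w + w = 0 := by
  have : (2 : ZMod 2) • w = 0 := by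
    have : (2 : ZMod 2) = 0 := by decide
    rw [this, zero_smul]
  rwa [two_smul] at this

/-- a functional is balanced on a set stable under a suitable translation -/
lemma halve (S : Finset V) (χ : V →ₗ[ZMod 2] ZMod 2) (w : V) (hw : χ w = 1)
    (hS : ∀ v ∈ S, v + w ∈ S) :
    2 * (S.filter (fun v => χ v = 1)).card = S.card ∧
    2 * (S.filter (fun v => χ v = 0)).card = S.card := by
  have h1 : (S.filter (fun v => χ v = 1)).card = (S.filter (fun v => χ v = 0)).card := by
    apply Finset.card_nbij' (fun v => v + w) (fun v => v + w)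
    · intro v hv
      simp only [Finset.coe_filter, mem_ofPred_eq] at hv ⊢
      refine ⟨hS v hv.1, ?_⟩
      rw [map_add, hv.2, hw]; decide
    · intro v hv
      simp only [Finset.coe_filter, mem_ofPred_eq] at hv ⊢
      refine ⟨hS v hv.1, ?_⟩
      rw [map_add, hv.2, hw]; decide
    · intro v _
      simp only
      rw [add_assoc, vadd_self, add_zero]
    · intro v _
      simp only
      rw [add_assoc, vadd_self, add_zero]
  have h2 : (S.filter (fun v => χ v = 1)).card + (S.filter (fun v => ¬ χ v = 1)).card = S.card :=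
    Finset.card_filter_add_card_filter_not _
  have h3 : S.filter (fun v => ¬ χ v = 1) = S.filter (fun v => χ v = 0) := by
    apply Finset.filter_congr
    intro v _
    rcases z2_cases (χ v) with h | h <;> rw [h] <;> decide
  rw [h3] at h2
  constructor <;> omega

theorem exists_random {B : Type} [Fintype B] [DecidableEq B] (φ ψ : V →ₗ[ZMod 2] ZMod 2)
    (w1 w2 : V) (h1 : φ w1 = 1) (h2 : φ w2 = 0) (h3 : ψ w2 = 1) (n : ℕ)
    (hn : Module.finrank (ZMod 2) V = n) (hn4 : 4 ≤ n) (s : ℕ) (w : B → V)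
    (hw : ∀ T : Finset B, T.Nonempty → T.card ≤ s → ∑ i ∈ T, w i ≠ 0) (N : ℕ) (hN : N = 5 * n ^ 2)
    (hs : (Fintype.card B + N + 1) ^ s * 8 ≤ 2 ^ n) :
    ∃ z : Fin N → V, (∀ i, φ (z i) = 1 ∧ ψ (z i) = 1) ∧
      (∀ χ : V →ₗ[ZMod 2] ZMod 2, χ ≠ 0 → χ ≠ φ + ψ → ∀ U : Submodule (ZMod 2) V,
        Module.finrank (ZMod 2) U + 4 ≤ n → ∃ i, χ (z i) = 1 ∧ z i ∉ U) ∧
      (∀ T : Finset (B ⊕ Fin N), T.Nonempty → T.card ≤ s → ∑ i ∈ T, Sum.elim w z i ≠ 0) := by
  classical
  have : Module.Finite (ZMod 2) V := Module.Finite.of_finite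
  have : Fintype (V →ₗ[ZMod 2] ZMod 2) := Fintype.ofInjective (fun f => (f : V → ZMod 2))
    DFunLike.coe_injective
  have hcardV : Fintype.card V = 2 ^ n := by
    rw [Module.card_eq_pow_finrank (K := ZMod 2), hn, ZMod.card]
  have hcardD : Fintype.card (V →ₗ[ZMod 2] ZMod 2) = 2 ^ n := by
    have := Module.card_eq_pow_finrank (K := ZMod 2) (V := Module.Dual (ZMod 2) V)
    rw [Subspace.dual_finrank_eq, hn, ZMod.card] at this
    rw [← this]
  -- the affine subspace
  set A : Finset V := (Finset.univ.filter (fun v => φ v = 1)).filter (fun v => ψ v = 1) with hAdef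
  have memA : ∀ v, v ∈ A ↔ φ v = 1 ∧ ψ v = 1 := by intro v; simp [hAdef]
  have hA4 : 4 * A.card = 2 ^ n := by
    have e1 := (halve (Finset.univ : Finset V) φ w1 h1 (by simp)).1
    have e2 := (halve (Finset.univ.filter (fun v => φ v = 1)) ψ w2 h3 (by
      intro v hv
      simp only [Finset.mem_filter, Finset.mem_univ, true_and] at hv ⊢
      rw [map_add, hv, h2, add_zero])).1
    rw [Finset.card_univ, hcardV] at e1
    rw [← hAdef] at e2
    omega
  have hApos : 0 < A.card := by
    have : 0 < 2 ^ n := by positivity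
    omega
  -- the good points for a pair
  have hpair : ∀ (χ : V →ₗ[ZMod 2] ZMod 2) (U : Submodule (ZMod 2) V), χ ≠ 0 → χ ≠ φ + ψ →
      Module.finrank (ZMod 2) U + 4 ≤ n →
      4 * (A.filter (fun v => χ v = 0 ∨ v ∈ U)).card ≤ 3 * A.card := by
    intro χ U hχ0 hχ1 hU
    have hUcard : 16 * (Finset.univ.filter (fun v => v ∈ U)).card ≤ 2 ^ n := by
      have e1 : (Finset.univ.filter (fun v => v ∈ U)).card = Fintype.card U := by
        rw [Fintype.card_subtype]
      rw [e1, Module.card_eq_pow_finrank (K := ZMod 2), ZMod.card]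
      calc 16 * 2 ^ Module.finrank (ZMod 2) U = 2 ^ (Module.finrank (ZMod 2) U + 4) := by
            rw [pow_add]; ring
        _ ≤ 2 ^ n := Nat.pow_le_pow_right (by norm_num) hU
    have hhalf : 2 * (A.filter (fun v => χ v = 0)).card ≤ A.card := by
      by_cases hc : χ = φ ∨ χ = ψ
      · have : A.filter (fun v => χ v = 0) = ∅ := by
          apply Finset.filter_eq_empty_iff.mpr
          intro v hv
          rw [memA] at hv
          rcases hc with rfl | rfl
          · rw [hv.1]; decide
          · rw [hv.2]; decide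
        rw [this]; simp
      · push Not at hc
        -- a vector killed by both functionals but not by the third
        obtain ⟨u, hu1, hu2, hu3⟩ : ∃ u, φ u = 0 ∧ ψ u = 0 ∧ χ u = 1 := by
          by_contra hcon
          push Not at hcon
          have hle : ⨅ i : Fin 2, LinearMap.ker ((![φ, ψ] : Fin 2 → (V →ₗ[ZMod 2] ZMod 2)) i) ≤
              LinearMap.ker χ := by
            intro u hu
            rw [Submodule.mem_iInf] at hu
            have hu0 := hu 0
            have hu1 := hu 1
            simp only [Matrix.cons_val_zero, Matrix.cons_val_one, LinearMap.mem_ker] at hu0 hu1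
            rw [LinearMap.mem_ker]
            rcases z2_cases (χ u) with h | h
            · exact h
            · exact absurd h (hcon u hu0 hu1)
          have hmem := mem_span_of_iInf_ker_le_ker hle
          rw [Matrix.range_cons, Matrix.range_cons, Matrix.range_empty, union_empty,
            singleton_union] at hmem
          rw [Submodule.mem_span_pair] at hmem
          obtain ⟨a, b, hab⟩ := hmem
          rcases z2_cases a with rfl | rfl <;> rcases z2_cases b with rfl | rfl
          · apply hχ0; rw [← hab]; simp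
          · apply hc.2; rw [← hab]; simp
          · apply hc.1; rw [← hab]; simp
          · apply hχ1; rw [← hab]; simp
        exact (halve A χ u hu3 (by
          intro v hv
          rw [memA] at hv ⊢
          rw [map_add, map_add, hu1, hu2, add_zero, add_zero]
          exact hv)).2.le
    have hsub : A.filter (fun v => χ v = 0 ∨ v ∈ U) ⊆
        A.filter (fun v => χ v = 0) ∪ Finset.univ.filter (fun v => v ∈ U) := by
      intro v hv
      simp only [Finset.mem_filter, Finset.mem_union, Finset.mem_univ, true_and] at hv ⊢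
      rcases hv.2 with h | h
      · exact Or.inl ⟨hv.1, h⟩
      · exact Or.inr h
    have e1 := (Finset.card_le_card hsub).trans (Finset.card_union_le _ _)
    omega
  -- index sets of bad events
  set I1 : Finset ((V →ₗ[ZMod 2] ZMod 2) × (Fin n → V)) := Finset.univ.filter (fun p =>
    p.1 ≠ 0 ∧ p.1 ≠ φ + ψ ∧
      Module.finrank (ZMod 2) (Submodule.span (ZMod 2) (range p.2)) + 4 ≤ n) with hI1
  set I2 : Finset (Finset (B ⊕ Fin N)) := Finset.univ.filter (fun T => T.card ≤ s ∧
    ∃ i, Sum.inr i ∈ T) with hI2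
  let Ω : Finset (Fin N → V) := Fintype.piFinset (fun _ => A)
  let Bad1 : ((V →ₗ[ZMod 2] ZMod 2) × (Fin n → V)) → Finset (Fin N → V) := fun p =>
    Fintype.piFinset (fun _ => A.filter (fun v => p.1 v = 0 ∨
      v ∈ Submodule.span (ZMod 2) (range p.2)))
  let Bad2 : Finset (B ⊕ Fin N) → Finset (Fin N → V) := fun T =>
    Ω.filter (fun z => ∑ i ∈ T, Sum.elim w z i = 0)
  have hΩ : Ω.card = A.card ^ N := by simp [Ω]
  have hBad1 : ∀ p ∈ I1, 4 ^ N * (Bad1 p).card ≤ 3 ^ N * A.card ^ N := by
    intro p hp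
    simp only [hI1, Finset.mem_filter, Finset.mem_univ, true_and] at hp
    have e1 : (Bad1 p).card = (A.filter (fun v => p.1 v = 0 ∨
      v ∈ Submodule.span (ZMod 2) (range p.2))).card ^ N := by simp [Bad1]
    rw [e1, ← mul_pow, ← mul_pow]
    exact Nat.pow_le_pow_left (hpair _ _ hp.1 hp.2.1 hp.2.2) N
  have hBad2 : ∀ T ∈ I2, (Bad2 T).card * A.card ≤ A.card ^ N := by
    intro T hT
    simp only [hI2, Finset.mem_filter, Finset.mem_univ, true_and] at hT
    obtain ⟨_, i0, hi0⟩ := hT
    rw [← hΩ, ← Finset.card_product]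
    apply Finset.card_le_card_of_injOn (fun p : (Fin N → V) × V => Function.update p.1 i0 p.2)
    · rintro ⟨z, a⟩ hp
      simp only [Finset.coe_product, mem_prod, Finset.mem_coe, Bad2, Finset.mem_filter, Ω,
        Fintype.mem_piFinset] at hp ⊢
      intro j
      by_cases hj : j = i0
      · subst hj; simp only [Function.update_self]; exact hp.2
      · simp only [Function.update_of_ne hj]; exact hp.1.1 j
    · rintro ⟨z, a⟩ hp ⟨z', a'⟩ hp' heq
      simp only [Finset.coe_product, mem_prod, Finset.mem_coe, Bad2, Finset.mem_filter] at hp hp'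
      simp only at heq
      have ha : a = a' := by
        have := congrFun heq i0
        simpa using this
      have hz : ∀ j, j ≠ i0 → z j = z' j := by
        intro j hj
        have := congrFun heq j
        simpa [Function.update_of_ne hj] using this
      have e1 := hp.1.2
      have e2 := hp'.1.2
      rw [← Finset.add_sum_erase T _ hi0] at e1 e2
      have e3 : ∑ x ∈ T.erase (Sum.inr i0), Sum.elim w z x =
          ∑ x ∈ T.erase (Sum.inr i0), Sum.elim w z' x := by
        apply Finset.sum_congr rfl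
        rintro (b | j) hj
        · rfl
        · have hne : j ≠ i0 := by
            rintro rfl
            simp at hj
          simpa using hz j hne
      rw [e3] at e1
      have e4 : Sum.elim w z (Sum.inr i0) = Sum.elim w z' (Sum.inr i0) :=
        add_right_cancel (e1.trans e2.symm)
      have e5 : z i0 = z' i0 := e4
      have e6 : z = z' := by
        ext j
        by_cases hj : j = i0
        · rw [hj, e5]
        · rw [hz j hj]
      rw [e6, ha]
  have hI1card : I1.card ≤ 2 ^ n * (2 ^ n) ^ n := by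
    calc I1.card ≤ (Finset.univ : Finset ((V →ₗ[ZMod 2] ZMod 2) × (Fin n → V))).card :=
          Finset.card_filter_le _ _
      _ = 2 ^ n * (2 ^ n) ^ n := by
          rw [Finset.card_univ, Fintype.card_prod, hcardD, Fintype.card_fun, hcardV, Fintype.card_fin]
  have hI2card : I2.card ≤ (Fintype.card B + N + 1) ^ s := by
    calc I2.card ≤ (Finset.univ.filter (fun T : Finset (B ⊕ Fin N) => T.card ≤ s)).card := by
          apply Finset.card_le_card
          intro T hT
          simp only [hI2, Finset.mem_filter, Finset.mem_univ, true_and] at hT ⊢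
          exact hT.1
      _ ≤ (Fintype.card (B ⊕ Fin N) + 1) ^ s := card_small_finsets _ _
      _ = (Fintype.card B + N + 1) ^ s := by
          rw [Fintype.card_sum, Fintype.card_fin]
  -- a good choice exists
  have hex : ∃ z ∈ Ω, (∀ p ∈ I1, z ∉ Bad1 p) ∧ (∀ T ∈ I2, z ∉ Bad2 T) := by
    by_contra hcon
    push Not at hcon
    have hcov : Ω ⊆ I1.biUnion Bad1 ∪ I2.biUnion Bad2 := by
      intro z hz
      rw [Finset.mem_union, Finset.mem_biUnion, Finset.mem_biUnion]
      by_cases h : ∀ p ∈ I1, z ∉ Bad1 p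
      · right
        obtain ⟨T, hT, hzT⟩ := hcon z hz h
        exact ⟨T, hT, hzT⟩
      · left
        push Not at h
        exact h
    have e1 := (Finset.card_le_card hcov).trans (Finset.card_union_le _ _)
    rw [hΩ] at e1
    have e2 : 4 ^ N * (I1.biUnion Bad1).card ≤ I1.card * (3 ^ N * A.card ^ N) := by
      calc 4 ^ N * (I1.biUnion Bad1).card ≤ 4 ^ N * ∑ p ∈ I1, (Bad1 p).card :=
            Nat.mul_le_mul_left _ Finset.card_biUnion_le
        _ = ∑ p ∈ I1, 4 ^ N * (Bad1 p).card := by rw [Finset.mul_sum]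
        _ ≤ ∑ p ∈ I1, 3 ^ N * A.card ^ N := Finset.sum_le_sum hBad1
        _ = I1.card * (3 ^ N * A.card ^ N) := by rw [Finset.sum_const, smul_eq_mul]
    have e3 : (I2.biUnion Bad2).card * A.card ≤ I2.card * A.card ^ N := by
      calc (I2.biUnion Bad2).card * A.card ≤ (∑ T ∈ I2, (Bad2 T).card) * A.card :=
            Nat.mul_le_mul_right _ Finset.card_biUnion_le
        _ = ∑ T ∈ I2, (Bad2 T).card * A.card := by rw [Finset.sum_mul]
        _ ≤ ∑ T ∈ I2, A.card ^ N := Finset.sum_le_sum hBad2
        _ = I2.card * A.card ^ N := by rw [Finset.sum_const, smul_eq_mul]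
    have hpow : 2 * (2 ^ n * (2 ^ n) ^ n) * 3 ^ N < 4 ^ N := by
      have e5 : 3 ^ N = (3 ^ 5) ^ (n ^ 2) := by rw [hN, pow_mul]
      have e6 : (4 : ℕ) ^ N = 2 ^ (2 * n ^ 2) * (2 ^ 8) ^ (n ^ 2) := by
        rw [hN, ← pow_mul, ← pow_add, show (4 : ℕ) = 2 ^ 2 by norm_num, ← pow_mul]
        congr 1; ring
      have e7 : (3 ^ 5) ^ (n ^ 2) < (2 ^ 8) ^ (n ^ 2) :=
        Nat.pow_lt_pow_left (by norm_num) (by positivity)
      have e8 : 2 * (2 ^ n * (2 ^ n) ^ n) ≤ 2 ^ (2 * n ^ 2) := by
        rw [← pow_mul, ← pow_add, ← pow_succ']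
        apply Nat.pow_le_pow_right (by norm_num)
        nlinarith
      rw [e5, e6]
      calc 2 * (2 ^ n * (2 ^ n) ^ n) * (3 ^ 5) ^ (n ^ 2)
          ≤ 2 ^ (2 * n ^ 2) * (3 ^ 5) ^ (n ^ 2) := Nat.mul_le_mul_right _ e8
        _ < 2 ^ (2 * n ^ 2) * (2 ^ 8) ^ (n ^ 2) := by
            apply Nat.mul_lt_mul_of_pos_left e7 (by positivity)
    have hI1' : 2 * (I1.card * (3 ^ N * A.card ^ N)) < 4 ^ N * A.card ^ N := by
      calc 2 * (I1.card * (3 ^ N * A.card ^ N))
          ≤ 2 * ((2 ^ n * (2 ^ n) ^ n) * (3 ^ N * A.card ^ N)) := by gcongr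
        _ = (2 * (2 ^ n * (2 ^ n) ^ n) * 3 ^ N) * A.card ^ N := by ring
        _ < 4 ^ N * A.card ^ N := by
            apply Nat.mul_lt_mul_of_pos_right hpow (by positivity)
    have hI2' : 2 * I2.card ≤ A.card := by
      omega
    -- combine
    have f1 : 4 ^ N * A.card ^ N ≤ I1.card * (3 ^ N * A.card ^ N) + 4 ^ N * (I2.biUnion Bad2).card := by
      calc 4 ^ N * A.card ^ N ≤ 4 ^ N * ((I1.biUnion Bad1).card + (I2.biUnion Bad2).card) :=
            Nat.mul_le_mul_left _ e1
        _ = 4 ^ N * (I1.biUnion Bad1).card + 4 ^ N * (I2.biUnion Bad2).card := by ring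
        _ ≤ _ := Nat.add_le_add_right e2 _
    have f2 : 2 * ((I2.biUnion Bad2).card * A.card) ≤ A.card ^ N * A.card := by
      calc 2 * ((I2.biUnion Bad2).card * A.card) ≤ 2 * (I2.card * A.card ^ N) := by gcongr
        _ = (2 * I2.card) * A.card ^ N := by ring
        _ ≤ A.card * A.card ^ N := Nat.mul_le_mul_right _ hI2'
        _ = _ := by ring
    have f3 : 2 * (I2.biUnion Bad2).card ≤ A.card ^ N := by
      have : 2 * (I2.biUnion Bad2).card * A.card ≤ A.card ^ N * A.card := by
        rw [mul_assoc]; exact f2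
      exact Nat.le_of_mul_le_mul_right this hApos
    have f4 : 2 * (4 ^ N * (I2.biUnion Bad2).card) ≤ 4 ^ N * A.card ^ N := by
      calc 2 * (4 ^ N * (I2.biUnion Bad2).card) = 4 ^ N * (2 * (I2.biUnion Bad2).card) := by ring
        _ ≤ _ := Nat.mul_le_mul_left _ f3
    omega
  obtain ⟨z, hzΩ, hz1, hz2⟩ := hex
  have hzA : ∀ i, z i ∈ A := by
    intro i
    exact (Fintype.mem_piFinset.mp hzΩ) i
  refine ⟨z, fun i => (memA _).mp (hzA i), ?_, ?_⟩
  · intro χ hχ0 hχ1 U hU
    by_contra hcon
    push Not at hcon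
    -- a spanning tuple
    obtain ⟨u, hu⟩ : ∃ u : Fin n → V, Submodule.span (ZMod 2) (range u) = U := by
      let b := Module.finBasis (ZMod 2) U
      refine ⟨fun i => if h : i.val < Module.finrank (ZMod 2) U then (b ⟨i.val, h⟩ : V) else 0, ?_⟩
      apply le_antisymm
      · rw [Submodule.span_le]
        rintro _ ⟨i, rfl⟩
        simp only
        split_ifs
        · exact (b _).2
        · exact U.zero_mem
      · intro x hx
        have hx' : (⟨x, hx⟩ : U) ∈ Submodule.span (ZMod 2) (range b) := by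
          rw [b.span_eq]; trivial
        have h5 : U.subtype ⟨x, hx⟩ ∈ Submodule.map U.subtype (Submodule.span (ZMod 2) (range b)) :=
          Submodule.mem_map_of_mem hx'
        rw [Submodule.map_span] at h5
        refine Submodule.span_mono ?_ h5
        rintro _ ⟨_, ⟨j, rfl⟩, rfl⟩
        have hj : j.val < n := by have := j.2; omega
        exact ⟨⟨j.val, hj⟩, by simp⟩
    refine hz1 (χ, u) ?_ ?_
    · simp only [hI1, Finset.mem_filter, Finset.mem_univ, true_and]
      exact ⟨hχ0, hχ1, by rw [hu]; exact hU⟩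
    · simp only [Bad1, Fintype.mem_piFinset, Finset.mem_filter]
      intro i
      refine ⟨hzA i, ?_⟩
      rcases z2_cases (χ (z i)) with h | h
      · exact Or.inl h
      · right; rw [hu]; exact hcon i h
  · intro T hT hTs hsum
    by_cases hi : ∃ i, Sum.inr i ∈ T
    · refine hz2 T ?_ ?_
      · simp only [hI2, Finset.mem_filter, Finset.mem_univ, true_and]
        exact ⟨hTs, hi⟩
      · simp only [Bad2, Finset.mem_filter]
        exact ⟨hzΩ, hsum⟩
    · push Not at hi
      have hR : T.toRight = ∅ := by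
        ext i; simp [hi]
      have h5 : ∑ i ∈ T, Sum.elim w z i = ∑ x ∈ T.toLeft, w x := by
        conv_lhs => rw [← Finset.toLeft_disjSum_toRight (u := T)]
        rw [Finset.sum_disjSum, hR]
        simp
      rw [h5] at hsum
      refine hw T.toLeft ?_ ?_ hsum
      · obtain ⟨i, hiT⟩ := hT
        rcases i with x | y
        · exact ⟨x, by simpa using hiT⟩
        · exact absurd hiT (hi y)
      · have := Finset.card_toLeft_add_card_toRight (u := T)
        omega

end Random


section Assembly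

lemma sq_le_two_pow (k : ℕ) : (20 * (k + 1)) ^ 2 ≤ 2 ^ (20 * (k + 1)) := by
  have h1 : 5 * (k + 1) < 2 ^ (5 * (k + 1)) := Nat.lt_two_pow_self
  have h2 : (2 : ℕ) ^ (20 * (k + 1)) = (2 ^ (5 * (k + 1))) ^ 4 := by
    rw [← pow_mul]; congr 1; ring
  rw [h2]
  calc (20 * (k + 1)) ^ 2 ≤ (5 * (k + 1)) ^ 4 := by
        have : 1 ≤ (k + 1) ^ 2 := Nat.one_le_pow _ _ (by omega)
        nlinarith
    _ ≤ _ := Nat.pow_le_pow_left h1.le 4

lemma par1 (k : ℕ) : 2 * k * (20 * (k + 1) + 2) < 2 ^ (20 * (k + 1)) := by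
  have := sq_le_two_pow k
  nlinarith

lemma par2 (k : ℕ) :
    (2 ^ (20 * (k + 1)) + 2 ^ (20 * (k + 1)) + 5 * (2 ^ (20 * (k + 1))) ^ 2 + 1) ^ (2 * k) * 8 ≤
      2 ^ (2 ^ (20 * (k + 1))) := by
  set n := 2 ^ (20 * (k + 1)) with hn
  have hn1 : 1 ≤ n := Nat.one_le_two_pow
  have h1 : n + n + 5 * n ^ 2 + 1 ≤ 2 ^ (2 * (20 * (k + 1)) + 3) := by
    have : 2 ^ (2 * (20 * (k + 1)) + 3) = 8 * n ^ 2 := by
      rw [hn, ← pow_mul, pow_add]; ring
    rw [this]
    nlinarith
  calc (n + n + 5 * n ^ 2 + 1) ^ (2 * k) * 8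
      ≤ (2 ^ (2 * (20 * (k + 1)) + 3)) ^ (2 * k) * 8 := by gcongr
    _ = 2 ^ ((2 * (20 * (k + 1)) + 3) * (2 * k) + 3) := by
        rw [← pow_mul, pow_add]; norm_num
    _ ≤ 2 ^ n := by
        apply Nat.pow_le_pow_right (by norm_num)
        have := sq_le_two_pow k
        rw [← hn] at this
        nlinarith

/-- every nonempty small subset has nonzero sum, hence small subsets are independent -/
lemma indep_of_small {ι V : Type} [AddCommGroup V] [Module (ZMod 2) V] {v : ι → V} {t : ℕ}
    (h : ∀ T : Finset ι, T.Nonempty → T.card ≤ t → ∑ i ∈ T, v i ≠ 0) [Finite ι] {S : Set ι}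
    (hS : S.ncard ≤ t) : LinearIndepOn (ZMod 2) v S := by
  rw [indep_iff_sum]
  intro T hT hne
  refine h T hne (le_trans ?_ hS)
  rw [← ncard_coe_finset]
  exact ncard_le_ncard hT (toFinite S)

lemma rank_ge {ι V : Type} [AddCommGroup V] [Module (ZMod 2) V] [Module.Finite (ZMod 2) V]
    {v : ι → V} {t : ℕ}
    (h : ∀ T : Finset ι, T.Nonempty → T.card ≤ t → ∑ i ∈ T, v i ≠ 0) [Finite ι] (X : Set ι) :
    min X.ncard t ≤ Module.finrank (ZMod 2) (Submodule.span (ZMod 2) (v '' X)) := by
  obtain ⟨S, hS, hSc⟩ := exists_subset_card_eq (min_le_left X.ncard t)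
  have h1 := indep_of_small h (S := S) (by rw [hSc]; exact min_le_right _ _)
  rw [← hSc, ← ncard_le_of_span v h1]
  exact Submodule.finrank_mono (Submodule.span_mono (image_mono hS))

/-- the connectivity estimate -/
lemma conn_of {ι V : Type} [AddCommGroup V] [Module (ZMod 2) V] [Module.Finite (ZMod 2) V]
    [Finite ι] {v : ι → V} {n k : ℕ} (hn : Module.finrank (ZMod 2) V = n) (hnk : k + 6 ≤ n)
    (hsmall : ∀ T : Finset ι, T.Nonempty → T.card ≤ k - 1 → ∑ i ∈ T, v i ≠ 0)
    (hP : ∀ χ : V →ₗ[ZMod 2] ZMod 2, χ ≠ 0 → ∀ U : Submodule (ZMod 2) V,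
        Module.finrank (ZMod 2) U + 4 ≤ n → ∃ i, χ (v i) ≠ 0 ∧ v i ∉ U) (X : Set ι) :
    n + min (min X.ncard Xᶜ.ncard) (k - 1) ≤
      Module.finrank (ZMod 2) (Submodule.span (ZMod 2) (v '' X)) +
      Module.finrank (ZMod 2) (Submodule.span (ZMod 2) (v '' Xᶜ)) := by
  -- if one side has small rank, the other one spans
  have key : ∀ Y : Set ι, Module.finrank (ZMod 2) (Submodule.span (ZMod 2) (v '' Y)) + 4 ≤ n →
      Module.finrank (ZMod 2) (Submodule.span (ZMod 2) (v '' Yᶜ)) = n := by
    intro Y hY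
    have htop : Submodule.span (ZMod 2) (v '' Yᶜ) = ⊤ := by
      by_contra hne
      obtain ⟨χ, hχ0, hχ⟩ := Submodule.exists_le_ker_of_lt_top _ (lt_top_iff_ne_top.mpr hne)
      obtain ⟨i, hi1, hi2⟩ := hP χ hχ0 _ hY
      by_cases hiY : i ∈ Y
      · exact hi2 (Submodule.subset_span ⟨i, hiY, rfl⟩)
      · apply hi1
        have : v i ∈ Submodule.span (ZMod 2) (v '' Yᶜ) := Submodule.subset_span ⟨i, hiY, rfl⟩
        exact hχ this
    rw [htop, finrank_top, hn]
  have h1 := rank_ge hsmall X
  have h2 := rank_ge hsmall Xᶜ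
  by_cases hX : Module.finrank (ZMod 2) (Submodule.span (ZMod 2) (v '' X)) + 4 ≤ n
  · have := key X hX
    have h3 : min (min X.ncard Xᶜ.ncard) (k - 1) ≤ min X.ncard (k - 1) := by
      simp only [le_min_iff]; omega
    omega
  · by_cases hX' : Module.finrank (ZMod 2) (Submodule.span (ZMod 2) (v '' Xᶜ)) + 4 ≤ n
    · have := key Xᶜ hX'
      rw [compl_compl] at this
      have h3 : min (min X.ncard Xᶜ.ncard) (k - 1) ≤ min Xᶜ.ncard (k - 1) := by
        simp only [le_min_iff]; omega
      omega
    · have h3 : min (min X.ncard Xᶜ.ncard) (k - 1) ≤ k - 1 := min_le_right _ _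
      omega


/-- the auxiliary set whose sum is the extra element -/
lemma exists_aux (k m N : ℕ) (hk : 1 ≤ k) (hm1 : 1 ≤ m) (hm2 : Even m) (hkm : k ≤ 2 ^ m)
    (z : Fin (N + 1) → Vsp m)
    (hz : ∀ i, ev m (z i) = 1 ∧ tot m (z i) = 1) :
    ∃ R : Finset ((Gam m ⊕ Gam m) ⊕ Fin (N + 1)), R.card = k - 1 ∧
      (k = 1 ∨ (ev m (∑ i ∈ R, Sum.elim (bw m) z i) = 1 ∧
        tot m (∑ i ∈ R, Sum.elim (bw m) z i) = 1)) := by
  classical
  rcases Nat.lt_or_ge k 2 with hk1 | hk2
  · exact ⟨∅, by simp; omega, Or.inl (by omega)⟩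
  obtain ⟨Q, _, hQ⟩ := Finset.exists_subset_card_eq (s := (Finset.univ : Finset (Gam m))) (n := k - 2)
    (by rw [Finset.card_univ, card_gam]; omega)
  let f : Gam m ↪ (Gam m ⊕ Gam m) ⊕ Fin (N + 1) :=
    ⟨fun x => Sum.inl (Sum.inl x), fun x y h => by simpa using h⟩
  have hsumQ : ∑ i ∈ Q.map f, Sum.elim (bw m) z i = ∑ x ∈ Q, bw m (Sum.inl x) := by
    rw [Finset.sum_map]; rfl
  have hevQ : ev m (∑ x ∈ Q, bw m (Sum.inl x)) = 0 := by
    rw [map_sum]; exact Finset.sum_eq_zero fun x _ => ev_bw_inl m x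
  have htotQ : tot m (∑ x ∈ Q, bw m (Sum.inl x)) = ((k - 2 : ℕ) : ZMod 2) := by
    rw [map_sum, Finset.sum_congr rfl (fun x _ => tot_bw_inl m hm1 x)]
    rw [Finset.sum_const, hQ, nsmul_eq_mul, mul_one]
  rcases Nat.even_or_odd k with he | ho
  · have hb : Sum.inr (0 : Fin (N + 1)) ∉ Q.map f := by
      simp [f]
    refine ⟨insert (Sum.inr 0) (Q.map f), ?_, Or.inr ⟨?_, ?_⟩⟩
    · rw [Finset.card_insert_of_notMem hb, Finset.card_map, hQ]; omega
    · rw [Finset.sum_insert hb, map_add, hsumQ, hevQ, add_zero]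
      exact (hz 0).1
    · rw [Finset.sum_insert hb, map_add, hsumQ, htotQ]
      have h1 : ((k - 2 : ℕ) : ZMod 2) = 0 := by
        rw [ZMod.natCast_eq_zero_iff_even]
        exact (Nat.even_sub hk2).mpr ⟨fun _ => even_two, fun _ => he⟩
      rw [h1, add_zero]
      exact (hz 0).2
  · have hb : Sum.inl (Sum.inr (0 : Gam m)) ∉ Q.map f := by
      rw [Finset.mem_map]
      rintro ⟨x, _, hx⟩
      exact Sum.inl_ne_inr (Sum.inl.inj hx)
    refine ⟨insert (Sum.inl (Sum.inr 0)) (Q.map f), ?_, Or.inr ⟨?_, ?_⟩⟩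
    · rw [Finset.card_insert_of_notMem hb, Finset.card_map, hQ]; omega
    · rw [Finset.sum_insert hb, map_add, hsumQ, hevQ, add_zero]
      exact ev_bw_inr m 0
    · rw [Finset.sum_insert hb, map_add, hsumQ, htotQ]
      have h1 : ((k - 2 : ℕ) : ZMod 2) = 1 := by
        rw [ZMod.natCast_eq_one_iff_odd]
        exact (Nat.odd_sub hk2).mpr ⟨fun _ => even_two, fun _ => ho⟩
      rw [h1]
      have h2 : tot m (Sum.elim (bw m) z (Sum.inl (Sum.inr 0))) = 0 := tot_bw_inr m hm1 hm2 0
      rw [h2, zero_add]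

theorem exists_conf (k : ℕ) (hk : 1 ≤ k) : ∃ (ι V : Type) (_ : Finite ι) (_ : AddCommGroup V)
    (_ : Module (ZMod 2) V) (v : ι → V) (H K : Set ι) (φ ψ : V →ₗ[ZMod 2] ZMod 2),
    ∃ c : Conf v H K φ ψ (2 ^ (20 * (k + 1))), HasTutteConnectivity c.mat k := by
  classical
  set m := 20 * (k + 1) with hm
  have hm1 : 1 ≤ m := by omega
  have hm2 : Even m := ⟨10 * (k + 1), by omega⟩
  have hsq : m ^ 2 ≤ 2 ^ m := sq_le_two_pow k
  have hbig : k + 6 ≤ 2 ^ m := by nlinarith
  have hrank : Module.finrank (ZMod 2) (Vsp m) = 2 ^ m := by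
    rw [Module.finrank_fintype_fun_eq_card, card_gam]
  have h4 : 4 ≤ 2 ^ m := by omega
  obtain ⟨N, hN⟩ : ∃ N, N + 1 = 5 * (2 ^ m) ^ 2 := by
    refine ⟨5 * (2 ^ m) ^ 2 - 1, ?_⟩
    have : 0 < (2 ^ m) ^ 2 := by positivity
    omega
  obtain ⟨z, hz1, hz2, hz3⟩ := exists_random (B := Gam m ⊕ Gam m) (V := Vsp m) (ev m) (tot m)
    (eu m 0) (bw m (Sum.inl 0)) (ev_eu0 m) (ev_bw_inl m 0) (tot_bw_inl m hm1 0) (2 ^ m) hrank h4
    (2 * k) (bw m) (fun T hT hTc => sum_bw_small m (2 * k) (by omega) (par1 k) hT hTc) (N + 1) hN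
    (by
      have := par2 k
      rw [Fintype.card_sum, card_gam, hN]
      exact this)
  obtain ⟨R, hRc, hR⟩ := exists_aux k m N hk hm1 hm2 (by omega) z hz1
  -- the configuration
  let v' : (Gam m ⊕ Gam m) ⊕ Fin (N + 1) → Vsp m := Sum.elim (bw m) z
  let v : Option ((Gam m ⊕ Gam m) ⊕ Fin (N + 1)) → Vsp m :=
    fun o => o.elim (∑ i ∈ R, v' i) v'
  have hv_none : v none = ∑ i ∈ R, v' i := rfl
  have hv_some : ∀ b, v (some b) = v' b := fun _ => rfl
  let fH : Gam m → Option ((Gam m ⊕ Gam m) ⊕ Fin (N + 1)) := fun x => some (Sum.inl (Sum.inl x))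
  let fK : Gam m → Option ((Gam m ⊕ Gam m) ⊕ Fin (N + 1)) := fun x => some (Sum.inl (Sum.inr x))
  have hfH : Function.Injective fH := fun x y h => by simpa [fH] using h
  have hfK : Function.Injective fK := fun x y h => by simpa [fK] using h
  let fB : (Gam m ⊕ Gam m) ↪ Option ((Gam m ⊕ Gam m) ⊕ Fin (N + 1)) :=
    ⟨fun x => some (Sum.inl x), fun x y h => by simpa using h⟩
  have card_rng : ∀ f : Gam m → Option ((Gam m ⊕ Gam m) ⊕ Fin (N + 1)), Function.Injective f →
      (range f).ncard = 2 ^ m := by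
    intro f hf
    rw [← image_univ, ncard_image_of_injective univ hf, ncard_univ, Nat.card_eq_fintype_card,
      card_gam]
  -- transfer of sums
  have transfer : ∀ T : Finset (Option ((Gam m ⊕ Gam m) ⊕ Fin (N + 1))), (T : Set _) ⊆ range fB →
      ∃ T' : Finset (Gam m ⊕ Gam m), T = T'.map fB ∧ ∑ i ∈ T, v i = ∑ i ∈ T', bw m i := by
    intro T hT
    refine ⟨T.preimage fB fB.injective.injOn, ?_, ?_⟩
    · ext x
      simp only [Finset.mem_map, Finset.mem_preimage]
      constructor
      · intro hx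
        obtain ⟨y, rfl⟩ := hT hx
        exact ⟨y, hx, rfl⟩
      · rintro ⟨y, hy, rfl⟩; exact hy
    · have hTe : T = (T.preimage fB fB.injective.injOn).map fB := by
        ext x
        simp only [Finset.mem_map, Finset.mem_preimage]
        constructor
        · intro hx
          obtain ⟨y, rfl⟩ := hT hx
          exact ⟨y, hx, rfl⟩
        · rintro ⟨y, hy, rfl⟩; exact hy
      conv_lhs => rw [hTe]
      rw [Finset.sum_map]
      rfl
  -- small sums are nonzero
  have hsmall : ∀ T : Finset (Option ((Gam m ⊕ Gam m) ⊕ Fin (N + 1))), T.Nonempty →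
      T.card ≤ k - 1 → ∑ i ∈ T, v i ≠ 0 := by
    intro T hT hTc
    have hsome : ∀ S : Finset (Option ((Gam m ⊕ Gam m) ⊕ Fin (N + 1))),
        ∑ i ∈ S.erase none, v i = ∑ i ∈ S.eraseNone, v' i := by
      intro S
      rw [← Finset.map_some_eraseNone, Finset.sum_map]
      rfl
    by_cases hnone : none ∈ T
    · rw [← Finset.add_sum_erase T v hnone, hsome, hv_none, ← sum_symmDiff2]
      have hc1 : T.eraseNone.card = T.card - 1 := Finset.card_eraseNone_of_mem hnone
      have hc2 : 1 ≤ T.card := Finset.card_pos.mpr hT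
      have hne : symmDiff R T.eraseNone ≠ ∅ := by
        intro h
        have : R = T.eraseNone := by
          rw [← Finset.bot_eq_empty, symmDiff_eq_bot] at h
          exact h
        rw [this] at hRc
        omega
      apply hz3
      · exact Finset.nonempty_iff_ne_empty.mpr hne
      · have h5 : (symmDiff R T.eraseNone).card ≤ R.card + T.eraseNone.card := by
          rw [symmDiff_def, Finset.sup_eq_union]
          refine (Finset.card_union_le _ _).trans ?_
          exact Nat.add_le_add (Finset.card_le_card Finset.sdiff_subset)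
            (Finset.card_le_card Finset.sdiff_subset)
        omega
    · have h5 : T.erase none = T := Finset.erase_eq_of_notMem hnone
      rw [← h5, hsome]
      apply hz3
      · obtain ⟨x, hx⟩ := hT
        rcases x with _ | x
        · exact absurd hx hnone
        · exact ⟨x, Finset.mem_eraseNone.mpr hx⟩
      · rw [Finset.card_eraseNone_of_not_mem hnone]; omega
  have indH : ∀ h ∈ range fH, LinearIndepOn (ZMod 2) v (range fH \ {h}) := by
    rintro _ ⟨x0, rfl⟩
    rw [indep_iff_sum]
    intro T hT hne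
    obtain ⟨T', rfl, hsum⟩ := transfer T (by
      intro y hy
      obtain ⟨x, rfl⟩ := (hT hy).1
      exact ⟨Sum.inl x, rfl⟩)
    rw [hsum]
    apply sum_bw_left m (z := x0)
    · ext y
      simp only [Finset.mem_toRight, Finset.notMem_empty, iff_false]
      intro hy
      obtain ⟨⟨x, hx⟩, _⟩ := hT (Finset.mem_coe.mpr (Finset.mem_map_of_mem fB hy))
      exact Sum.inl_ne_inr (Sum.inl.inj (Option.some.inj hx))
    · simpa using hne
    · intro hy
      have := hT (Finset.mem_coe.mpr (Finset.mem_map_of_mem fB hy))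
      exact this.2 rfl
  have indK : ∀ h ∈ range fK, LinearIndepOn (ZMod 2) v (range fK \ {h}) := by
    rintro _ ⟨x0, rfl⟩
    rw [indep_iff_sum]
    intro T hT hne
    obtain ⟨T', rfl, hsum⟩ := transfer T (by
      intro y hy
      obtain ⟨x, rfl⟩ := (hT hy).1
      exact ⟨Sum.inr x, rfl⟩)
    rw [hsum]
    apply sum_bw_right m hm2 (z := x0)
    · ext y
      simp only [Finset.mem_toLeft, Finset.notMem_empty, iff_false]
      intro hy
      obtain ⟨⟨x, hx⟩, _⟩ := hT (Finset.mem_coe.mpr (Finset.mem_map_of_mem fB hy))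
      exact Sum.inr_ne_inl (Sum.inl.inj (Option.some.inj hx))
    · simpa using hne
    · intro hy
      have := hT (Finset.mem_coe.mpr (Finset.mem_map_of_mem fB hy))
      exact this.2 rfl
  have c : Conf v (range fH) (range fK) (ev m) (tot m) (2 ^ m) := by
    refine ⟨inferInstance, hrank, h4, ?_, card_rng fH hfH, card_rng fK hfK, indH, indK, ?_, ?_,
      ?_, ?_⟩
    · rw [Set.disjoint_left]
      rintro _ ⟨x, rfl⟩ ⟨y, hy⟩
      simp [fH, fK] at hy
    · rintro _ ⟨x, rfl⟩
      exact ev_bw_inl m x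
    · rintro _ ⟨x, rfl⟩
      exact tot_bw_inr m hm1 hm2 x
    · intro e he
      rcases e with _ | ((x | y) | i)
      · right
        rcases hR with h1 | h1
        · rw [hv_none]
          have : R = ∅ := by rw [← Finset.card_eq_zero, hRc]; omega
          rw [this]; simp
        · rw [hv_none, h1.1] at he
          exact absurd he (by decide)
      · left; exact ⟨x, rfl⟩
      · have := ev_bw_inr m y
        rw [hv_some] at he
        change ev m (bw m (Sum.inr y)) = 0 at he
        rw [this] at he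
        exact absurd he (by decide)
      · have := (hz1 i).1
        rw [hv_some] at he
        change ev m (z i) = 0 at he
        rw [this] at he
        exact absurd he (by decide)
    · intro e he
      rcases e with _ | ((x | y) | i)
      · right
        rcases hR with h1 | h1
        · rw [hv_none]
          have : R = ∅ := by rw [← Finset.card_eq_zero, hRc]; omega
          rw [this]; simp
        · rw [hv_none, h1.2] at he
          exact absurd he (by decide)
      · have := tot_bw_inl m hm1 x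
        rw [hv_some] at he
        change tot m (bw m (Sum.inl x)) = 0 at he
        rw [this] at he
        exact absurd he (by decide)
      · left; exact ⟨y, rfl⟩
      · have := (hz1 i).2
        rw [hv_some] at he
        change tot m (z i) = 0 at he
        rw [this] at he
        exact absurd he (by decide)
  have hP : ∀ χ : Vsp m →ₗ[ZMod 2] ZMod 2, χ ≠ 0 → ∀ U : Submodule (ZMod 2) (Vsp m),
      Module.finrank (ZMod 2) U + 4 ≤ 2 ^ m → ∃ i, χ (v i) ≠ 0 ∧ v i ∉ U := by
    intro χ hχ U hU
    by_cases hχ1 : χ = ev m + tot m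
    · by_contra hcon
      push Not at hcon
      have hle : Submodule.span (ZMod 2) (v '' (range fH \ {fH 0})) ≤ U := by
        rw [Submodule.span_le]
        rintro _ ⟨e, ⟨⟨x, rfl⟩, _⟩, rfl⟩
        apply hcon
        rw [hχ1, LinearMap.add_apply]
        change ev m (bw m (Sum.inl x)) + tot m (bw m (Sum.inl x)) ≠ 0
        rw [ev_bw_inl, tot_bw_inl m hm1]
        decide
      have h5 := Submodule.finrank_mono hle
      rw [ncard_le_of_span v (indH (fH 0) ⟨0, rfl⟩),
        ncard_sdiff_singleton_of_mem (mem_range_self 0),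
        card_rng fH hfH] at h5
      omega
    · obtain ⟨i, hi1, hi2⟩ := hz2 χ hχ hχ1 U hU
      refine ⟨some (Sum.inr i), ?_, hi2⟩
      change χ (z i) ≠ 0
      rw [hi1]; decide
  -- the circuit
  let C : Finset (Option ((Gam m ⊕ Gam m) ⊕ Fin (N + 1))) := insert none (R.map Function.Embedding.some)
  have hCnone : none ∉ R.map Function.Embedding.some := by simp
  have hCcard : C.card = k := by
    rw [Finset.card_insert_of_notMem hCnone, Finset.card_map, hRc]; omega
  have hCsum : ∑ i ∈ C, v i = 0 := by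
    rw [Finset.sum_insert hCnone, Finset.sum_map, hv_none]
    exact add_self2 _
  refine ⟨_, Vsp m, inferInstance, inferInstance, inferInstance, v, range fH, range fK, ev m, tot m,
    c, ?_⟩
  refine c.tutte k hk (fun X => conn_of hrank hbig hsmall hP X) (C : Set _) ?_ ?_ ?_
  · rw [ncard_coe_finset]; exact hCcard
  · rintro (h | h | h)
    · rw [indep_iff_sum] at h
      exact h C subset_rfl ⟨none, Finset.mem_insert_self _ _⟩ hCsum
    · have : none ∈ range fH := by rw [← h]; exact Finset.mem_coe.mpr (Finset.mem_insert_self _ _)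
      obtain ⟨x, hx⟩ := this
      simp [fH] at hx
    · have : none ∈ range fK := by rw [← h]; exact Finset.mem_coe.mpr (Finset.mem_insert_self _ _)
      obtain ⟨x, hx⟩ := this
      simp [fK] at hx
  · have h5 := ncard_add_ncard_compl (C : Set (Option ((Gam m ⊕ Gam m) ⊕ Fin (N + 1))))
    rw [ncard_coe_finset, hCcard, Nat.card_eq_fintype_card, Fintype.card_option, Fintype.card_sum,
      Fintype.card_sum, card_gam] at h5
    omega


lemma sep_map {α β : Type*} (M : Matroid α) (f : α → β) (hf : InjOn f M.E) (j : ℕ) :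
    HasSeparation (M.map f hf) j ↔ HasSeparation M j := by
  have hcompl : ∀ X, X ⊆ M.E → (M.map f hf).E \ f '' X = f '' (M.E \ X) := by
    intro X hX
    rw [Matroid.map_ground, ← hf.image_sdiff_subset hX]
  have henc : ∀ X, X ⊆ M.E → (f '' X).encard = X.encard := fun X hX => (hf.mono hX).encard_image
  have hrk : ∀ X, X ⊆ M.E → (M.map f hf).eRk (f '' X) = M.eRk X := fun X hX => M.eRk_map hf hX
  constructor
  · rintro ⟨X, hX, h1, h2, h3⟩
    rw [Matroid.map_ground] at hX
    obtain ⟨X0, hX0, rfl⟩ := (subset_image_iff).mp hX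
    rw [hcompl X0 hX0, henc _ sdiff_subset] at h2
    rw [hcompl X0 hX0, hrk _ hX0, hrk _ sdiff_subset, Matroid.eRank_map] at h3
    rw [henc _ hX0] at h1
    exact ⟨X0, hX0, h1, h2, h3⟩
  · rintro ⟨X, hX, h1, h2, h3⟩
    refine ⟨f '' X, ?_, ?_, ?_, ?_⟩
    · rw [Matroid.map_ground]; exact image_mono hX
    · rw [henc _ hX]; exact h1
    · rw [hcompl X hX, henc _ sdiff_subset]; exact h2
    · rw [hcompl X hX, hrk _ hX, hrk _ sdiff_subset, Matroid.eRank_map]; exact h3

theorem exists_mat (k : ℕ) (hk : 1 ≤ k) : ∃ M : Matroid ℕ, M.E.Finite ∧ Star M ∧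
    (∃ H K : Set ℕ, Disjoint H K ∧ H.encard = ((2 ^ (20 * (k + 1)) : ℕ) : ℕ∞) ∧
      K.encard = ((2 ^ (20 * (k + 1)) : ℕ) : ℕ∞) ∧ TwoSpecial M H K) ∧
    M.eRank = ((2 ^ (20 * (k + 1)) : ℕ) : ℕ∞) ∧ HasTutteConnectivity M k := by
  obtain ⟨ι, V, _, _, _, v, H, K, φ, ψ, c, hc⟩ := exists_conf k hk
  obtain ⟨g, hg⟩ := exists_injective_nat ι
  have hgi : InjOn g c.mat.E := hg.injOn
  refine ⟨c.mat.map g hgi, ?_, c.star.map g hgi, ⟨g '' H, g '' K, ?_, ?_, ?_,
    c.twoSpecial.map g hgi⟩, ?_, ?_⟩
  · rw [Matroid.map_ground]; exact (toFinite _).image g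
  · exact (disjoint_image_iff hg).mpr c.disj
  · rw [hg.encard_image, ← (toFinite H).cast_ncard_eq, c.cardH]
  · rw [hg.encard_image, ← (toFinite K).cast_ncard_eq, c.cardK]
  · rw [Matroid.eRank_map]; exact c.eRank
  · have hset : {j : ℕ | 1 ≤ j ∧ HasSeparation (c.mat.map g hgi) j} =
        {j : ℕ | 1 ≤ j ∧ HasSeparation c.mat j} := by
      ext j
      rw [mem_ofPred_eq, mem_ofPred_eq, sep_map]
    rw [HasTutteConnectivity, hset]
    exact hc

/-- There is an infinite antichain of finite matroids having a member of Tutte connectivity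
exactly `k` for every positive integer `k`, such that no member has a minor isomorphic to the
uniform matroid of rank three on six elements. -/
theorem result :
    ∃ 𝒩 : Set (Matroid ℕ), 𝒩.Infinite ∧ (∀ M ∈ 𝒩, M.E.Finite) ∧
      (∀ N ∈ 𝒩, ∀ M ∈ 𝒩, N ≠ M → ¬ IsoMinor N M) ∧
      (∀ k : ℕ, 1 ≤ k → ∃ M ∈ 𝒩, HasTutteConnectivity M k) ∧
      (∀ M ∈ 𝒩, ¬ ∃ U : Matroid ℕ, U.IsMinor M ∧ U.E.encard = 6 ∧
        ∀ I : Set ℕ, U.Indep I ↔ (I ⊆ U.E ∧ I.encard ≤ 3)) := by
  choose Mk hfin hstar hspecial hrank htutte using fun k : ℕ => exists_mat (k + 1) (by omega)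
  have hmono : ∀ i j : ℕ, i < j → 2 ^ (20 * (i + 1 + 1)) < 2 ^ (20 * (j + 1 + 1)) := by
    intro i j hij
    exact Nat.pow_lt_pow_right (by norm_num) (by omega)
  have hne : ∀ i j : ℕ, Mk i = Mk j → i = j := by
    intro i j h
    have h1 := hrank i
    rw [h, hrank j] at h1
    have h2 : 2 ^ (20 * (j + 1 + 1)) = 2 ^ (20 * (i + 1 + 1)) := by exact_mod_cast h1
    rcases lt_trichotomy i j with h3 | h3 | h3
    · have := hmono i j h3; omega
    · exact h3
    · have := hmono j i h3; omega
  refine ⟨range Mk, infinite_range_of_injective hne, ?_, ?_, ?_, ?_⟩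
  · rintro _ ⟨i, rfl⟩; exact hfin i
  · rintro _ ⟨i, rfl⟩ _ ⟨j, rfl⟩ hij ⟨f, hf, hminor⟩
    have hij' : i ≠ j := fun h => hij (by rw [h])
    rcases lt_or_gt_of_ne hij' with hlt | hlt
    · obtain ⟨H, K, hdisj, hH, hK, hQ⟩ := hspecial j
      refine not_star_minor hdisj hQ hminor ?_ ?_ ((hstar i).map f hf)
      · rw [Matroid.eRank_map, hrank i, hH]
        exact_mod_cast hmono i j hlt
      · rw [Matroid.eRank_map, hrank i, hK]
        exact_mod_cast hmono i j hlt
    · -- ranks cannot increase in minors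
      obtain ⟨B, hB⟩ := ((Mk i).map f hf).exists_isBase
      have h1 := hB.indep.of_isMinor hminor
      have h2 := h1.encard_le_eRank
      rw [hB.encard_eq_eRank, Matroid.eRank_map, hrank i, hrank j] at h2
      have h3 : 2 ^ (20 * (i + 1 + 1)) ≤ 2 ^ (20 * (j + 1 + 1)) := by exact_mod_cast h2
      have := hmono j i hlt
      omega
  · intro k hk
    obtain ⟨k, rfl⟩ := Nat.exists_eq_add_of_le' hk
    exact ⟨Mk k, ⟨k, rfl⟩, htutte k⟩
  · rintro _ ⟨j, rfl⟩ ⟨U, hU, hE, hI⟩
    obtain ⟨H, K, hdisj, hH, hK, hQ⟩ := hspecial j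
    have hUr : U.eRank ≤ 3 := by
      obtain ⟨B, hB⟩ := U.exists_isBase
      rw [← hB.encard_eq_eRank]
      exact ((hI B).mp hB.indep).2
    have hbig : (3 : ℕ∞) < ((2 ^ (20 * (j + 1 + 1)) : ℕ) : ℕ∞) := by
      have : 3 < 2 ^ (20 * (j + 1 + 1)) := by
        calc 3 < 2 ^ 20 := by norm_num
          _ ≤ 2 ^ (20 * (j + 1 + 1)) := Nat.pow_le_pow_right (by norm_num) (by omega)
      exact_mod_cast this
    refine not_star_minor hdisj hQ hU ?_ ?_ (star_uniform hE hI)
    · rw [hH]; exact lt_of_le_of_lt hUr hbig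
    · rw [hK]; exact lt_of_le_of_lt hUr hbig

end Assembly

end Pool.Agent.Results.MP_5d01ce_co.Disproof
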